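import Pool.Agent.H90.STE.Defs

/-!
# Sticky families of lines with a random time: statements of the modules
-/

set_option autoImplicit false

namespace Pool.STE

open Finset Real
open Pool.Agent.H49.Ent Pool.Agent.H32.Dense Pool.STK Pool.KA

/-! ### Splitting into windows of scales (random time) -/

/-- SPB: chain rule for the positions. (As `H58/STK/SPB`.) -/
def SPBStmt : Prop :=
  ∀ (m J : ℕ) (F : Fam m J) (N k : ℕ), ∑ r ∈ Finset.range N,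
    CH F.p (F.X ((r + 1) * k)) (fun ω => (F.X (r * k) ω, F.W ω)) ≤ CH F.p (F.X (N * k)) F.W

/-- SPC: the informations `iT` are almost nonnegative. (As `H94/STK/SPC`.) -/
def SPCStmt : Prop := ∀ (m J : ℕ) (F : Fam m J) (k r : ℕ), -cc m ≤ iT F k r

/-- ZF: the family seen in the window number `r` of scales, at resolution `k`.
(`u' = zo (r k) u`, `d' = zo (r k) d`, `T' = T / 2 ^ (N k - k)`, `Z' = (L (r k), Z)`. As
`H58/STK/ZD, ZS`, `H62/STK/ZX`. The digits of `T` after the first `k` are not in the side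
information: `CH X' (T', Z') ≤ CH X' (T, Z') + (CH T' .. )`: the information of the line on `T`
given `Z'` and `T'` is at most `e` by `Tm e`.) -/
def ZFStmt : Prop :=
  ∀ (m N k : ℕ) (F : Fam m (N * k)) (r : ℕ), r < N → ∀ e ε : ℝ, F.Tm e → Stk F ε →
    ∃ Q : Fam m k, Q.Tm e ∧ Stk Q (ε * N) ∧
      CH Q.p (Q.D k) Q.Z = CH F.p (F.D ((r + 1) * k)) (fun ω => (F.L (r * k) ω, F.Z ω)) ∧
      CH Q.p (Q.X k) Q.W ≤ CH F.p (F.X ((r + 1) * k)) (bT F k r) + cc m + e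

/-- VB: the functional in each window. (From ZF.) -/
def VBStmt : Prop :=
  ∀ (m : ℕ) (a R η ε ε₁ θ₁ e : ℝ) (N k : ℕ) (F : Fam m (N * k)), 1 ≤ a →
    GoodT m a (R + η) ε₁ θ₁ k → ε * N ≤ ε₁ → e ≤ θ₁ * k → F.Tm e → Stk F ε →
    ∀ r < N, vT a F k r ≤ (R + η) * k + a * (cc m + e)

/-- CR: self-similarity of near-maximisers. (VB, SPB, SPC and `SPAStmt` of STK.) -/
def CRStmt : Prop :=
  ∀ (m : ℕ) (a R η ε ε₁ θ₁ e : ℝ) (N k : ℕ) (F : Fam m (N * k)), 1 ≤ a → 1 ≤ N →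
    GoodT m a (R + η) ε₁ θ₁ k → ε * N ≤ ε₁ → e ≤ θ₁ * k → F.Tm e → Stk F ε →
    a * CH F.p (F.X (N * k)) F.W + (R - η) * (N * k) ≤ CH F.p (F.D (N * k)) F.Z →
    ∑ r ∈ Finset.range N, ((R + η) * k + a * (cc m + e) - vT a F k r) +
      a * ∑ r ∈ Finset.range N, (iT F k r + cc m) ≤ B1 m a η ε e N k

/-! ### Conditionally independent copies (random time) -/

/-- CA: conservation of differences, first inequality. (As `H68/STK/CN1`; on the support of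
`dbl p (bT F k r)` the two samples have the same time and the same coarse line.) -/
def CAStmt : Prop :=
  ∀ (m J : ℕ) (F : Fam m J) (k r : ℕ), k ≤ J →
    CH (dbl F.p (bT F k r)) (zT F k ((r + 1) * k))
        (fun w => (F.X ((r + 1) * k) w.1, F.W w.1)) ≤
      CH F.p (F.X ((r + 1) * k)) (fun ω => (F.X (r * k) ω, F.W ω)) + 2 * cc m

/-- CB: second inequality. (As `H44/STK/CN2`.) -/
def CBStmt : Prop :=
  ∀ (m J : ℕ) (F : Fam m J) (k r : ℕ), k ≤ J →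
    CH F.p (F.X ((r + 1) * k)) (bT F k r) ≤
      CH (dbl F.p (bT F k r)) (zT F k ((r + 1) * k)) (fun w => w.1) + cc m

/-- CC: third inequality. (As `H72/STK/CN3`.) -/
def CCStmt : Prop :=
  ∀ (m J : ℕ) (F : Fam m J) (k r : ℕ), k ≤ J →
    CH (dbl F.p (bT F k r)) (zT F k ((r + 1) * k)) (fun w => bT F k r w.1) ≤
      CH (dbl F.p (bT F k r)) (zT F k ((r + 1) * k)) (fun w => (F.X (r * k) w.1, F.W w.1)) + cc m

/-- CD: fourth inequality. (As `H44/STK/CN4`.) -/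
def CDStmt : Prop :=
  ∀ (m J : ℕ) (F : Fam m J) (k r : ℕ), k ≤ J →
    CH (dbl F.p (bT F k r)) (fun w => F.X ((r + 1) * k) w.2 - F.X ((r + 1) * k) w.1)
        (fun w => bT F k r w.1) ≤
      CH (dbl F.p (bT F k r)) (zT F k ((r + 1) * k)) (fun w => bT F k r w.1) + cc m

/-- QT: the differences carry little more information on the line than on the position.
(CA, CB, `MULStmt`, `MUIStmt` of STK. As `H41/STK/Q22`.) -/
def QTStmt : Prop :=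
  ∀ (m J : ℕ) (F : Fam m J) (k N : ℕ), k ≤ J →
    CH (pT F k N) (yT F k N) (fun w => (F.X (N * k) w.1, F.W w.1)) -
      CH (pT F k N) (yT F k N) (fun w => w.1) ≤ qT F k N

/-- ST: the informations of the differences on the positions add up. (As `H68/STK/SUT`.) -/
def STStmt : Prop :=
  ∀ (m J : ℕ) (F : Fam m J) (k N : ℕ), k ≤ J →
    ∑ r ∈ Finset.range N, tT F k r ≤ jT F k N

/-- DT: the doubling of a slice. (CA - CD. As `H89/STK/D43`.) -/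
def DTStmt : Prop :=
  ∀ (m J : ℕ) (F : Fam m J) (k r : ℕ), k ≤ J → hT F k r ≤ tT F k r + iT F k r + 4 * cc m

/-- HT: the doubling is nonnegative. (As `H80/STK/TH0`.) -/
def HTStmt : Prop := ∀ (m J : ℕ) (F : Fam m J) (k r : ℕ), 0 ≤ hT F k r

/-- TS: the total doubling. (ST, DT.) -/
def TSStmt : Prop :=
  ∀ (m J : ℕ) (F : Fam m J) (k N : ℕ), k ≤ J →
    ∑ r ∈ Finset.range N, hT F k r ≤ jT F k N + qT F k N + N * cc m

/-! ### Windows of times (random time) -/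

/-- TN: the differences carry little information on the time, given the line and the first `k`
digits of the time. (MUI: the left hand side is at most the sum over `r` of
`CH z_r (l, T1, Z) - CH z_r ω`; `z_r` is a function of `(l, l'_r, T1)`, so the `r`-th term is at
most `CH l'_r (L (r k), T1, Z) - CH l'_r ω = CH l (L (r k), T1, Z) - CH l (L (r k), T, Z)`, which
is the information of `T` on the line given `(L (r k), T1, Z)`; it is at most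
`(J - k) log 2 - CH T (l, T1, Z) ≤ e`.) -/
def TNStmt : Prop :=
  ∀ (m J : ℕ) (F : Fam m J) (k N : ℕ) (e : ℝ), k ≤ J → F.Tm e →
    CH (pT F k N) (yT F k N) (fun w => (F.l w.1, (F.T1 k w.1, F.Z w.1))) -
      CH (pT F k N) (yT F k N) (fun w => w.1) ≤ N * e

/-- WF: the family of the lines seen in the window of length `2 ^ (-k)` of the time, at
resolution `J`. (Sample space of `pT`; `u' = x1 k`, `d' = 2 ^ (-k) d`, `T' = 2 ^ k (T mod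
2 ^ (J - k))`, `Z' = (yT, (T1 k, Z))`; then `x' = x`. `Tm`: TN. Stickiness: as `H31/STK/WIN`.
Directions: `Fl d' J = Fl d (J - k)`, `RFNStmt` of STK, and the information of `(yT, T)` on the
line given `Z` is at most `e + jT`. Positions: the chain rule.) -/
def WFStmt : Prop :=
  ∀ (m J : ℕ) (F : Fam m J) (k N : ℕ) (e ε : ℝ), k ≤ J → F.Tm e → Stk F ε →
    ∃ Q : Fam m J, Q.Tm (k * Real.log 2 + (N + 1) * e) ∧
      (∀ j ≤ J, CH Q.p (Fl Q.u j) (fun ω => (Q.D j ω, Q.Z ω)) ≤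
        ε * J + m * (k * Real.log 2) + 2 * cc m) ∧
      CH F.p (F.D J) F.Z - e - jT F k N - m * (k * Real.log 2) - cc m ≤ CH Q.p (Q.D J) Q.Z ∧
      CH Q.p (Q.X J) Q.W ≤ CH F.p (F.X J) F.W - CH (pT F k N) (yT F k N) (fun w => F.W w.1) +
        CH (pT F k N) (yT F k N) (fun w => (F.X J w.1, F.W w.1))

/-- SD: extremality against data processing in the windows of times. (WF, QT. As
`H94/STK/SDP`.) -/
def SDStmt : Prop :=
  ∀ (m : ℕ) (a R η₂ ε ε₂ θ₂ e : ℝ) (N k : ℕ) (F : Fam m (N * k)), 1 ≤ a → 1 ≤ N → 0 ≤ e →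
    GoodT m a (R + η₂) ε₂ θ₂ (N * k) → F.Tm e → Stk F ε →
    ε * (N * k) + m * (k * Real.log 2) + 2 * cc m ≤ ε₂ * (N * k) →
    k * Real.log 2 + (N + 1) * e ≤ θ₂ * (N * k) →
    (a - 1) * jT F k N ≤ a * CH F.p (F.X (N * k)) F.W + a * qT F k N -
      CH F.p (F.D (N * k)) F.Z + (R + η₂) * (N * k) + m * (k * Real.log 2) + cc m + e

/-- CO: the core for one vertex. (VB, CR, SD, TS, SPC, HT.) -/
def COStmt : Prop :=
  ∀ (m : ℕ) (a R η ε ε₁ θ₁ e : ℝ) (N k : ℕ) (F : Fam m (N * k)), 1 < a → 1 ≤ N → 0 ≤ e →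
    GoodT m a (R + η) ε₁ θ₁ k → GoodT m a (R + η) ε₁ θ₁ (N * k) →
    ε * N ≤ ε₁ → e ≤ θ₁ * k →
    ε * (N * k) + m * (k * Real.log 2) + 2 * cc m ≤ ε₁ * (N * k) →
    k * Real.log 2 + (N + 1) * e ≤ θ₁ * (N * k) → F.Tm e → Stk F ε →
    a * CH F.p (F.X (N * k)) F.W + (R - η) * (N * k) ≤ CH F.p (F.D (N * k)) F.Z →
    (∀ r < N, 0 ≤ (R + η) * k + a * (cc m + e) - vT a F k r) ∧
    ∑ r ∈ Finset.range N, ((R + η) * k + a * (cc m + e) - vT a F k r) ≤ B1 m a η ε e N k ∧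
    (∀ r < N, 0 ≤ hT F k r) ∧
    ∑ r ∈ Finset.range N, hT F k r ≤ B3T m a η ε e N k

/-! ### Cubes of times -/

/-- CU: cubes of times on the lines. (Induction on `n`: the sample space `Ω × Ω` with the law
`dbl p (l, Z)`, the vertex `w ∪ {n}` has the time `S w` of the second copy,
`h_n = S ∅ w.2 - S ∅ w.1`. See STE_PLAN, section 1.) -/
def CUStmt : Prop :=
  ∀ (m J n : ℕ) (F : Fam m J) (e : ℝ), 0 ≤ e → F.Tm e → ∃ C : Cub m J n,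
    (∀ w, w ⊆ Finset.range n → (C.ver w).Tm (2 ^ n * (e + Real.log 2))) ∧
    (∀ ε, Stk F ε → ∀ w, Stk (C.ver w) ε) ∧
    CH F.p (F.D J) F.Z - 2 ^ n * (e + Real.log 2) ≤ CH C.F.p (C.F.D J) C.F.Z ∧
    (∀ w, w ⊆ Finset.range n →
      CH C.F.p ((C.ver w).X J) (C.ver w).W ≤ CH F.p (F.X J) F.W) ∧
    ∀ i < n, C.lam i ≤ 2 ^ n * (e + Real.log 2) + Real.log (J + 2) + 1

/-! ### The Boolean lattice -/

/-- IN: inclusion matrices. -/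
def INStmt : Prop :=
  ∀ n j : ℕ, j < n → ∃ Φ : Finset (Finset (Fin n)),
    Φ ⊆ Finset.powersetCard (j + 1) Finset.univ ∧
    Φ.card = min (n.choose j) (n.choose (j + 1)) ∧
    ∃ c d : Finset (Fin n) → Finset (Fin n) → ℝ, ∀ Y : Finset (Fin n) → ℝ, ∀ φ ∈ Φ,
      Y φ = ∑ S ∈ Finset.powersetCard (j + 1) Finset.univ \ Φ, c φ S * Y S +
        ∑ S ∈ Finset.powersetCard j Finset.univ, d φ S * ∑ i ∈ Sᶜ, Y (insert i S)

/-- BN: binomial coefficients. -/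
def BNStmt : Prop :=
  (∀ n : ℕ, 1 ≤ n → ∑ j ∈ Finset.range (n - 1), min (n.choose j) (n.choose (j + 1)) +
    (1 + n.choose (n / 2)) = 2 ^ n) ∧
  (∀ n : ℕ, 1 ≤ n → 1 ≤ KQ n) ∧ ∀ a : ℝ, 1 < a → ∃ n : ℕ, 1 ≤ n ∧ (2 : ℝ) ^ n ≤ a * KQ n

/-! ### Small doubling at the vertices of a cube of times -/

/-- KQ: the key inequality, STE_PLAN 3.3. (IN, BN, `PRDStmt`, `SUMStmt` of STK.) -/
def KQStmt : Prop :=
  ∀ m n : ℕ, 1 ≤ n → ∃ C : ℝ, 0 ≤ C ∧ ∀ (Ω : Type) [Fintype Ω] (p : Ω → ℝ) (A : Ω → QL m n)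
    (h : Fin n → ℝ) (y : Ω → Fin m → ℝ) (E : ℝ) (i₀ : Fin n), IsLaw p →
    (∀ i, h i ≠ 0 ∧ |h i| ≤ 1) → 1 ≤ E → ClQ A h y E →
    H p A + (KQ n - 1) * H p (fun ω => (A ω).2 i₀) ≤
      ∑ w : Finset (Fin n), H p (fun ω => evq w (A ω)) +
        (2 ^ n - 1) * (H (prd p) (TQ A) - H p A) +
        C * (1 + Real.log E + ∑ i, Real.log (1 / |h i|))

/-- TP: properties of the sum of `2 ^ n` independent copies. (`CTSStmt`, `SUMStmt` of STK; as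
`H19/STK/TAP`.) -/
def TPStmt : Prop :=
  ∀ (m n : ℕ) (Ω₀ Ω : Type) [Fintype Ω₀] [Fintype Ω] (p₀ : Ω₀ → ℝ) (p : Ω → ℝ)
    (A : Ω → QL m n), IsLaw p₀ → IsLaw p →
    IsLaw (prd p : (Finset (Fin n) → Ω) → ℝ) ∧
    (∀ (x : Ω₀ → Fin m → ℤ) (C : ℝ) (w : Finset (Fin n)),
      Ctl p₀ x p (fun ω => evq w (A ω)) C →
      Ctl p₀ x (prd p) (fun v => evq w (TQ A v)) (2 ^ n * C)) ∧
    (∀ i, H p (fun ω => (A ω).2 i) ≤ H (prd p) (fun v => (TQ A v).2 i)) ∧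
    (∀ M : ℝ, BdQ A M → BdQ (TQ A) (2 ^ n * M)) ∧
    (∀ (h : Fin n → ℝ) (y : Ω → Fin m → ℝ) (E : ℝ), ClQ A h y E →
      ClQ (TQ A) h (fun v => ∑ x, y (v x)) (2 ^ n * E))

/-- IR: the iteration. (KQ, TP, CTH; as `H74/STK/ITR`.) -/
def IRStmt : Prop :=
  ∀ m n : ℕ, 1 ≤ n → ∃ C : ℝ, 0 ≤ C ∧ ∀ (h : Fin n → ℝ) (i₀ : Fin n),
    (∀ i, h i ≠ 0 ∧ |h i| ≤ 1) → ∀ (Ω₀ : Type) [Fintype Ω₀] (p₀ : Ω₀ → ℝ)
    (x : Finset (Fin n) → Ω₀ → Fin m → ℤ) (g σ : ℝ), IsLaw p₀ → 0 ≤ σ → ∀ (S : ℕ) (Ω : Type)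
    [Fintype Ω] (p : Ω → ℝ) (A : Ω → QL m n) (y : Ω → Fin m → ℝ) (M E : ℝ)
    (D : Finset (Fin n) → ℝ), IsLaw p → 1 ≤ M → 1 ≤ E → BdQ A M → ClQ A h y E →
    (∀ w, 0 ≤ D w) → (∀ w, Ctl p₀ (x w) p (fun ω => evq w (A ω)) (D w)) →
    g ≤ H p (fun ω => (A ω).2 i₀) →
    m * (n + 1) * Real.log (2 * ((2 ^ n) ^ S * M) + 1) < H p A + S * σ →
    KQ n * g ≤ ∑ w, (H p₀ (x w) + (2 ^ n) ^ S * D w) + (2 ^ n - 1) * σ +
      C * (1 + Real.log ((2 ^ n) ^ S * E) + ∑ i, Real.log (1 / |h i|))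

/-- SI: small doubling at the vertices of a cube of times, integer form. (IR, `DILStmt`; as
`H89/STK/SDI`.) -/
def SIStmt : Prop :=
  ∀ m n S : ℕ, 1 ≤ n → 1 ≤ S → ∃ C : ℝ, 0 ≤ C ∧ ∀ (h : Fin n → ℝ) (i₀ : Fin n),
    (∀ i, h i ≠ 0 ∧ |h i| ≤ 1) → ∀ (Ω : Type) [Fintype Ω] (p : Ω → ℝ) (l : Ω → QL m n)
    (y : Ω → Fin m → ℝ) (M : ℝ), IsLaw p → 1 ≤ M → BdQ l M → ClQ l h y 1 →
    KQ n * H p (fun ω => (l ω).2 i₀) ≤
      ∑ w, (H p (fun ω => evq w (l ω)) + (2 ^ n) ^ S *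
        (2 * (H (pr2 p p) (fun v => evq w (l v.2) - evq w (l v.1)) -
          H p (fun ω => evq w (l ω))))) +
      (2 ^ n - 1) * ((m * (n + 1) * Real.log (2 * ((2 ^ n) ^ S * M) + 1) + 1) / S) +
      C * (1 + ∑ i, Real.log (1 / |h i|))

/-- CM: comparison of the slices of the integer line with the rounded positions. (As
`H33/STK/CMP`; `l = (⌊2 ^ k (u + t₀ d)⌋, ⌊2 ^ k h_i d⌋)`, `y = 2 ^ k d`.) -/
def CMStmt : Prop :=
  ∀ m n : ℕ, ∃ C : ℝ, 0 ≤ C ∧ ∀ (Ω : Type) [Fintype Ω] (p : Ω → ℝ) (u d : Ω → Fin m → ℝ),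
    IsLaw p → (∀ ω i, 0 ≤ u ω i ∧ u ω i < 1) → (∀ ω i, 0 ≤ d ω i ∧ d ω i < 1) →
    ∀ (k : ℕ) (t₀ : ℝ) (h : Fin n → ℝ) (i₀ : Fin n), 0 ≤ t₀ → t₀ ≤ 1 →
    (∀ i, h i ≠ 0 ∧ |h i| ≤ 1) → ∃ (l : Ω → QL m n) (y : Ω → Fin m → ℝ),
      BdQ l (2 ^ (k + 1)) ∧ ClQ l h y 1 ∧
      H p (Fl d k) ≤ H p (fun ω => (l ω).2 i₀) + C * (1 + Real.log (1 / |h i₀|)) ∧
      ∀ w : Finset (Fin n),
        H p (fun ω => evq w (l ω)) ≤ H p (Xp u d (t₀ + ∑ i ∈ w, h i) k) + C ∧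
        H (pr2 p p) (fun v => evq w (l v.2) - evq w (l v.1)) - H p (fun ω => evq w (l ω)) ≤
          H (pr2 p p) (fun v => Xp u d (t₀ + ∑ i ∈ w, h i) k v.2 -
            Xp u d (t₀ + ∑ i ∈ w, h i) k v.1) - H p (Xp u d (t₀ + ∑ i ∈ w, h i) k) + C

/-- SQ: small doubling at the vertices of a cube of times. (SI, CM with `S` large; if `h i = 0`
for some `i`, the left hand side is at most `C (k log 2 + 1)`. As `H33/STK/SDT`.) -/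
def SQStmt : Prop :=
  ∀ (m n : ℕ) (ρ : ℝ), 1 ≤ n → 0 < ρ → ∃ C₁ : ℝ, 0 ≤ C₁ ∧ ∃ k₁ : ℕ, ∀ k ≥ k₁,
    ∀ (Ω : Type) [Fintype Ω] (p : Ω → ℝ) (u d : Ω → Fin m → ℝ), IsLaw p →
    (∀ ω i, 0 ≤ u ω i ∧ u ω i < 1) → (∀ ω i, 0 ≤ d ω i ∧ d ω i < 1) →
    ∀ (t₀ : ℝ) (h lam : Fin n → ℝ), 0 ≤ t₀ → t₀ ≤ 1 → (∀ i, |h i| ≤ 1) → (∀ i, 0 ≤ lam i) →
    (∀ i, h i = 0 → k * Real.log 2 ≤ lam i) → (∀ i, h i ≠ 0 → Real.log (1 / |h i|) ≤ lam i) →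
    KQ n * H p (Fl d k) ≤
      ∑ w : Finset (Fin n), (H p (Xp u d (t₀ + ∑ i ∈ w, h i) k) + C₁ *
        (H (pr2 p p) (fun v => Xp u d (t₀ + ∑ i ∈ w, h i) k v.2 -
          Xp u d (t₀ + ∑ i ∈ w, h i) k v.1) - H p (Xp u d (t₀ + ∑ i ∈ w, h i) k))) +
      C₁ * ∑ i, lam i + ρ * k

/-- SX: the same in the window number `r` of scales, for a family with a cube of times. (SQ for
the law given `(L (r k), (S ∅, Z))`, with `zo (r k) u`, `zo (r k) d`, and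
`lam i = log (2 ^ J / max 1 |h i|)`; `CDSStmt` of STK; `w : Finset (Fin n)` is mapped to
`w.map Fin.valEmbedding`. The rounding costs `C₁`.) -/
def SXStmt : Prop :=
  ∀ (m n : ℕ) (ρ : ℝ), 1 ≤ n → 0 < ρ → ∃ C₁ : ℝ, 0 ≤ C₁ ∧ ∃ k₁ : ℕ, ∀ k ≥ k₁, ∀ N : ℕ,
    ∀ C : Cub m (N * k) n, ∀ r < N,
    KQ n * CH C.F.p (C.F.D ((r + 1) * k)) (bT (C.ver ∅) k r) ≤
      ∑ w ∈ (Finset.range n).powerset, (CH C.F.p ((C.ver w).X ((r + 1) * k)) (bT (C.ver w) k r) +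
        C₁ * hT (C.ver w) k r) +
      C₁ * ∑ i ∈ Finset.range n, C.lam i + ρ * k + C₁

/-! ### The theorem -/

/-- PG: pigeonhole for several sums. -/
def PGStmt : Prop :=
  ∀ (ι : Type) (s : Finset ι) (N : ℕ) (x y : ι → ℕ → ℝ) (X Y : ℝ), 1 ≤ N →
    (∀ w ∈ s, ∀ r < N, 0 ≤ x w r) → (∀ w ∈ s, ∀ r < N, 0 ≤ y w r) →
    (∀ w ∈ s, ∑ r ∈ Finset.range N, x w r ≤ X) → (∀ w ∈ s, ∑ r ∈ Finset.range N, y w r ≤ Y) →
    ∃ r < N, ∀ w ∈ s, x w r ≤ 2 * s.card * X / N ∧ y w r ≤ 2 * s.card * Y / N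

/-- RD: replacing the resolution by a multiple of `N`. (`Fam.trc`; as `H31/STK/RED`.) -/
def RDStmt : Prop :=
  ∀ (m : ℕ) (a R η ε θ : ℝ) (N : ℕ), 1 ≤ a → 0 < η → 0 < ε → 0 < θ → 1 ≤ N →
    ∃ J₀ : ℕ, ∀ J ≥ J₀, ∀ F : Fam m J, F.Tm (θ / 2 * J) → Stk F (ε / 2) →
    a * CH F.p (F.X J) F.W + (R - η) * J < CH F.p (F.D J) F.Z →
    ∃ G : Fam m (N * (J / N)), G.Tm (θ * (N * (J / N) : ℕ)) ∧ Stk G ε ∧
      a * CH G.p (G.X (N * (J / N))) G.W + (R - 2 * η) * (N * (J / N) : ℕ) ≤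
        CH G.p (G.D (N * (J / N))) G.Z

/-- TV: a trivial inequality. (As `H21/STK/TRV`.) -/
def TVStmt : Prop := ∀ (m : ℕ) (a : ℝ), 1 ≤ a → GoodE m a (m * Real.log 2 + cc m + 1)

/-- CT: the contradiction at a near-maximiser. (CO for the vertices of CU, PG, SX.) -/
def CTStmt : Prop :=
  ∀ (m n : ℕ) (a ρ : ℝ), 1 ≤ n → 1 < a → 0 < ρ → (2 : ℝ) ^ n ≤ a * KQ n →
    ∃ C : ℝ, 0 ≤ C ∧ ∃ k₁ : ℕ, ∀ (R η ε ε₁ θ₁ e : ℝ) (N k : ℕ), k₁ ≤ k → 1 ≤ N → 0 ≤ R →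
    0 < η → 0 < ε → Real.log 2 ≤ e →
    GoodT m a (R + η) ε₁ θ₁ k → GoodT m a (R + η) ε₁ θ₁ (N * k) →
    ε * N ≤ ε₁ → C * e ≤ θ₁ * k →
    ε * (N * k) + m * (k * Real.log 2) + 2 * cc m ≤ ε₁ * (N * k) →
    k * Real.log 2 + (N + 1) * (C * e) ≤ θ₁ * (N * k) →
    C * e ≤ η * (N * k) →
    ∀ F : Fam m (N * k), F.Tm e → Stk F ε →
    a * CH F.p (F.X (N * k)) F.W + (R - η / 2) * (N * k) ≤ CH F.p (F.D (N * k)) F.Z →
    R * k ≤ C * (η * k + ε * N * k + k / N + e + 1 + Real.log (N * k + 2)) + a * ρ * k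

/-- ET: the theorem. (CT, CU, BN, RD, TV.) -/
def ETStmt : Prop := ∀ m : ℕ, KST m

end Pool.STE
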