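import Pool.Agent.H90.STE.Stmts
import Pool.Agent.H90.STK.Stmts3
import Pool.Agent.H55.Dense.HDim

/-!
# Sticky Kakeya with shadings: statements of the modules (board ste2)
-/

set_option autoImplicit false

namespace Pool.STE

open Finset Real MeasureTheory
open scoped RealInnerProductSpace ENNReal
open Pool.Agent.H49.Ent Pool.Agent.H32.Dense Pool.STK Pool.KA
open Pool.Agent.H53.Kak (E tube)

/-- CS: stickiness at all scales `j ≤ J` from coverings at the scales `δ ^ (r / M)`. (`TS2Stmt` at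
these scales, `RFNStmt` between them and up to the scale `δ ^ (1 / M)`, where `Fl u 0` is constant;
`M` large.) -/
def CSStmt : Prop :=
  ∀ d : ℕ, 1 ≤ d → ∀ ε₁ L c₁ c₂ : ℝ, 0 < ε₁ → 1 ≤ L → 0 < c₁ → 0 < c₂ → ∃ M : ℕ, 1 ≤ M ∧
    ∃ θ : ℝ, 0 < θ ∧ ∃ J₀ : ℕ, ∀ (δ : ℝ) (J : ℕ), J₀ ≤ J → 0 < δ → δ < 1 →
    c₁ * δ ≤ ((2 : ℝ) ^ J)⁻¹ → ((2 : ℝ) ^ J)⁻¹ ≤ c₂ * δ →
    ∀ (ι : Type) [Fintype ι] (c e : ι → E d) (k : Fin (d + 1)) (g : ℤ) (q : Fin d → ℤ),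
    Cell2 k g q c e → ∀ A : ℕ → ℕ, CovM L δ M A c e →
    (∀ r : ℕ, 1 ≤ r → r < M → (A r : ℝ) ≤ δ ^ (-θ)) → ∀ p : ι → ℝ, IsLaw p → ∀ j ≤ J,
    CH p (Fl (uT k g c e) j) (Fl (dT k e) j) ≤ ε₁ * J

/-- CEA: CE if all covering numbers are small. (CS for the index set of the pairs `(i, t)`, KST for
the law: `i` uniform, `t` uniform in `S i`; `TD2Stmt`. See the comment to CE.) -/
def CEAStmt : Prop :=
  ∀ d : ℕ, 1 ≤ d → ∀ ε L c₁ c₂ : ℝ, 0 < ε → 1 ≤ L → 0 < c₁ → 0 < c₂ → ∃ M : ℕ, 1 ≤ M ∧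
    ∃ θ C : ℝ, 0 < θ ∧ 1 ≤ C ∧ ∀ (δ : ℝ) (J : ℕ), 0 < δ → δ < 1 →
    c₁ * δ ≤ ((2 : ℝ) ^ J)⁻¹ → ((2 : ℝ) ^ J)⁻¹ ≤ c₂ * δ →
    ∀ (ι : Type) [Fintype ι] [Nonempty ι] (c e : ι → E d) (k : Fin (d + 1)) (g : ℤ)
      (q : Fin d → ℤ), Cell2 k g q c e → (∀ i i', i ≠ i' → δ ≤ ‖e i - e i'‖) →
    ∀ A : ℕ → ℕ, CovM L δ M A c e → (∀ r : ℕ, 1 ≤ r → r < M → (A r : ℝ) ≤ δ ^ (-θ)) →
    ∀ (lam : ℝ) (S : ι → Finset ℕ), δ ^ θ ≤ lam →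
    (∀ i, S i ⊆ Finset.range (2 ^ J) ∧ lam * 2 ^ J ≤ (S i).card) →
    ∀ V : Finset (ℕ × (Fin d → ℤ)),
    (∀ i, ∀ t ∈ S i, (t, fl J (pt (uT k g c e) (dT k e) ((t : ℝ) / 2 ^ J) i)) ∈ V) →
    (Fintype.card ι : ℝ) * (lam * 2 ^ J) ≤ C * δ ^ (-ε) * V.card

/-- CE: the number of pairs (time, cell of positions) met by the lines of one cell, if every line
has many times. (Sample space: the pairs `(i, t)` with `t ∈ S i`, `i` uniform and `t` uniform given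
`i`, a `Fam d J` with `u = uT k g c e`, `d = dT k e`, no side information. `Tm`: `H(t|i) = log card
(S i) ≥ J log 2 - log (1 / lam)`. Stickiness: if `log (C₅ A r) ≤ ε₁ J / 2` for all `r`, it follows
from `TS2Stmt` at the scales `δ ^ (r / M)`, and `RFNStmt` between them, with `M` large. Then `KST`
gives `H(D) ≤ a H(X|t) + R J`, where `log card ι ≤ H(D) + C` (`TD2Stmt`) and `H(X|t) ≤ log card V -
log (lam 2 ^ J)`. If some `A r` is large, the trivial bounds `card ι ≤ C δ ^ (-d)` (`TCDStmt`) and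
`lam 2 ^ J ≤ card V` suffice.) -/
def CEStmt : Prop :=
  ∀ d : ℕ, 1 ≤ d → ∀ ε L c₁ c₂ : ℝ, 0 < ε → 1 ≤ L → 0 < c₁ → 0 < c₂ → ∃ M : ℕ, 1 ≤ M ∧
    ∃ θ K C : ℝ, 0 < θ ∧ 0 ≤ K ∧ 1 ≤ C ∧ ∀ (δ : ℝ) (J : ℕ), 0 < δ → δ < 1 →
    c₁ * δ ≤ ((2 : ℝ) ^ J)⁻¹ → ((2 : ℝ) ^ J)⁻¹ ≤ c₂ * δ →
    ∀ (ι : Type) [Fintype ι] [Nonempty ι] (c e : ι → E d) (k : Fin (d + 1)) (g : ℤ)
      (q : Fin d → ℤ), Cell2 k g q c e → (∀ i i', i ≠ i' → δ ≤ ‖e i - e i'‖) →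
    ∀ A : ℕ → ℕ, CovM L δ M A c e → ∀ (lam : ℝ) (S : ι → Finset ℕ), δ ^ θ ≤ lam →
    (∀ i, S i ⊆ Finset.range (2 ^ J) ∧ lam * 2 ^ J ≤ (S i).card) →
    ∀ V : Finset (ℕ × (Fin d → ℤ)),
    (∀ i, ∀ t ∈ S i, (t, fl J (pt (uT k g c e) (dT k e) ((t : ℝ) / 2 ^ J) i)) ∈ V) →
    (Fintype.card ι : ℝ) * (lam * 2 ^ J) ≤
      C * δ ^ (-ε) * (∏ r ∈ Finset.Ico 1 M, (A r : ℝ)) ^ K * V.card

/-- GE: from a set which contains a part of the tubes in a slab to sets of times. (`S i` is the set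
of the `t` for which the part of `X ∩ tube ∩ sl k g` with `k`-th coordinate in
`[g hm + t 2 ^ (-J) hm, g hm + (t + 1) 2 ^ (-J) hm)` has measure at least a constant times
`lam δ ^ d 2 ^ (-J)`. The parts which belong to one element of `V` are in a box of size `C δ` in
the other coordinates; these boxes overlap boundedly.) -/
def GEStmt : Prop :=
  ∀ d : ℕ, ∃ c₁ c₂ c₃ : ℝ, 0 < c₁ ∧ 0 < c₂ ∧ 0 < c₃ ∧ ∀ δ : ℝ, 0 < δ → δ < 1 → ∃ J : ℕ,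
    c₁ * δ ≤ ((2 : ℝ) ^ J)⁻¹ ∧ ((2 : ℝ) ^ J)⁻¹ ≤ c₂ * δ ∧
    ∀ (ι : Type) [Fintype ι] (c e : ι → E d) (k : Fin (d + 1)) (g : ℤ) (q : Fin d → ℤ),
    Cell2 k g q c e → ∀ (X : Set (E d)) (lam : ℝ), MeasurableSet X → 0 < lam → lam ≤ 1 →
    (∀ i, ENNReal.ofReal (lam * δ ^ d) ≤ volume (X ∩ tube δ (c i) (e i) ∩ sl k g)) →
    ∃ (S : ι → Finset ℕ) (V : Finset (ℕ × (Fin d → ℤ))),
      (∀ i, S i ⊆ Finset.range (2 ^ J) ∧ c₃ * lam * 2 ^ J ≤ (S i).card) ∧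
      (∀ i, ∀ t ∈ S i, (t, fl J (pt (uT k g c e) (dT k e) ((t : ℝ) / 2 ^ J) i)) ∈ V) ∧
      ENNReal.ofReal (c₃ * lam * δ ^ d * ((2 : ℝ) ^ J)⁻¹ * V.card) ≤
        volume (X ∩ (⋃ i, tube δ (c i) (e i)) ∩ sl k g)

/-- TX: summation over the cells. (As `H40/STK/TOV`; for every tube one of the boundedly many slabs
which it meets contains a constant part of `X ∩ tube`.) -/
def TXStmt : Prop :=
  ∀ d : ℕ, ∃ c₆ : ℝ, 0 < c₆ ∧ ∀ (δ B lam : ℝ), 0 < δ → δ < 1 → 0 ≤ B → 0 < lam →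
    ∀ (ι : Type) [Fintype ι] (c e : ι → E d) (X : Set (E d)), MeasurableSet X →
    (∀ i, ‖e i‖ = 1) →
    (∀ i, ENNReal.ofReal (lam * δ ^ d) ≤ volume (X ∩ tube δ (c i) (e i))) →
    (∀ (κ : Type) [Fintype κ] [Nonempty κ] (f : κ → ι) (k : Fin (d + 1)) (g : ℤ)
      (q : Fin d → ℤ), Function.Injective f → Cell2 k g q (fun i => c (f i)) (fun i => e (f i)) →
      (∀ i, ENNReal.ofReal (c₆ * lam * δ ^ d) ≤
        volume (X ∩ tube δ (c (f i)) (e (f i)) ∩ sl k g)) →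
      ENNReal.ofReal (B * Fintype.card κ) ≤
        volume (X ∩ (⋃ i, tube δ (c (f i)) (e (f i))) ∩ sl k g)) →
    ENNReal.ofReal (c₆ * B * Fintype.card ι) ≤ volume X

/-- DN: **sticky families of tubes with shadings**, dense form. (CE, GE, TX. If `lam < δ ^ θ`:
`volume X ≥ lam δ ^ d` and `N δ ^ d ≤ C` suffice, with `P` large.) -/
def DNStmt : Prop :=
  ∀ d : ℕ, 1 ≤ d → ∀ ε L : ℝ, 0 < ε → 1 ≤ L → ∃ M : ℕ, 1 ≤ M ∧ ∃ P K C : ℝ, 0 ≤ P ∧ 0 ≤ K ∧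
    0 < C ∧ ∀ δ : ℝ, 0 < δ → δ < 1 → ∀ (ι : Type) [Fintype ι] (c e : ι → E d),
    (∀ i, ‖e i‖ = 1) → (∀ i i', i ≠ i' → δ ≤ ‖e i - e i'‖) → ∀ A : ℕ → ℕ, CovM L δ M A c e →
    ∀ (lam : ℝ) (X : Set (E d)), 0 < lam → lam ≤ 1 → MeasurableSet X →
    (∀ i, ENNReal.ofReal (lam * δ ^ d) ≤ volume (X ∩ tube δ (c i) (e i))) →
    ENNReal.ofReal (C⁻¹ * lam ^ P * δ ^ ε * (∏ r ∈ Finset.Ico 1 M, (A r : ℝ)) ^ (-K) *
      (Fintype.card ι * δ ^ d)) ≤ volume X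

/-- TY: **typical multiplicity**, off a part `δ ^ θ` of the mass. (DN for the subfamily of the tubes
of which a part `δ ^ θ / 2` is in the set of large multiplicity. As `H73/KFIN/Typ` and
`H1/STK2/TG2`.) -/
def TYStmt : Prop :=
  ∀ d : ℕ, 1 ≤ d → ∀ ε L : ℝ, 0 < ε → 1 ≤ L → ∃ M : ℕ, 1 ≤ M ∧ ∃ θ K C : ℝ, 0 < θ ∧ 0 ≤ K ∧
    0 < C ∧ ∀ δ : ℝ, 0 < δ → δ < 1 → ∀ (N : ℕ) (c e : Fin N → E d), (∀ i, ‖e i‖ = 1) →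
    (∀ i i', i ≠ i' → δ ≤ ‖e i - e i'‖) → ∀ A : ℕ → ℕ, CovM L δ M A c e →
    ∃ G : Set (E d), MeasurableSet G ∧
      ∑ i, volume (tube δ (c i) (e i) \ G) ≤
        ENNReal.ofReal (δ ^ θ) * ∑ i, volume (tube δ (c i) (e i)) ∧
      (∀ x ∈ G, mlt δ c e x ≤ C * δ ^ (-ε) * (∏ r ∈ Finset.Ico 1 M, (A r : ℝ)) ^ K) ∧
      (∀ q : ℝ, 1 + 1 / (d : ℝ) ≤ q → eLpNorm (G.indicator (mlt δ c e)) (ENNReal.ofReal q) volume ≤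
        ENNReal.ofReal (C * δ ^ (-ε) * (∏ r ∈ Finset.Ico 1 M, (A r : ℝ)) ^ K *
          (δ ^ ((d : ℝ) / q) * (N : ℝ) ^ (1 - 1 / (q * d)))))

/-- CE1: CE with the exponent `K = 1`, from the theorem on local direction entropies `EPTStmt` (no
case distinction): with `J' = M K` the largest multiple of `M` below `J` (`J - J' < M`), `log card ι ≤
H(D_J') + C = ∑ CH(D ((r+1)K) | D (r K)) + C`, where `CH(D ((r+1)K) | D (r K)) ≤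
CH(D ((r+1)K) | L (r K)) + CH(U (r K) | D (r K))`, and the last term is at most `log (C₅ A r)` by
`TS2Stmt` (`0` for `r = 0`, by `Cell2.ps`); then `EPTStmt`, and `CH(X | T) ≤ log card V -
log (lam 2 ^ J) + C` for the part of `V` which is used. -/
def CE1Stmt : Prop :=
  ∀ d : ℕ, 1 ≤ d → ∀ ε L c₁ c₂ : ℝ, 0 < ε → 1 ≤ L → 0 < c₁ → 0 < c₂ → ∃ M : ℕ, 1 ≤ M ∧
    ∃ θ C : ℝ, 0 < θ ∧ 1 ≤ C ∧ ∀ (δ : ℝ) (J : ℕ), 0 < δ → δ < 1 →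
    c₁ * δ ≤ ((2 : ℝ) ^ J)⁻¹ → ((2 : ℝ) ^ J)⁻¹ ≤ c₂ * δ →
    ∀ (ι : Type) [Fintype ι] [Nonempty ι] (c e : ι → E d) (k : Fin (d + 1)) (g : ℤ)
      (q : Fin d → ℤ), Cell2 k g q c e → (∀ i i', i ≠ i' → δ ≤ ‖e i - e i'‖) →
    ∀ A : ℕ → ℕ, CovM L δ M A c e → ∀ (lam : ℝ) (S : ι → Finset ℕ), δ ^ θ ≤ lam →
    (∀ i, S i ⊆ Finset.range (2 ^ J) ∧ lam * 2 ^ J ≤ (S i).card) →
    ∀ V : Finset (ℕ × (Fin d → ℤ)),
    (∀ i, ∀ t ∈ S i, (t, fl J (pt (uT k g c e) (dT k e) ((t : ℝ) / 2 ^ J) i)) ∈ V) →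
    (Fintype.card ι : ℝ) * (lam * 2 ^ J) ≤
      C * δ ^ (-ε) * (∏ r ∈ Finset.Ico 1 M, (A r : ℝ)) * V.card

/-- DN1: DN with the exponent `K = 1`. -/
def DN1Stmt : Prop :=
  ∀ d : ℕ, 1 ≤ d → ∀ ε L : ℝ, 0 < ε → 1 ≤ L → ∃ M : ℕ, 1 ≤ M ∧ ∃ P C : ℝ, 0 ≤ P ∧
    0 < C ∧ ∀ δ : ℝ, 0 < δ → δ < 1 → ∀ (ι : Type) [Fintype ι] (c e : ι → E d),
    (∀ i, ‖e i‖ = 1) → (∀ i i', i ≠ i' → δ ≤ ‖e i - e i'‖) → ∀ A : ℕ → ℕ, CovM L δ M A c e →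
    ∀ (lam : ℝ) (X : Set (E d)), 0 < lam → lam ≤ 1 → MeasurableSet X →
    (∀ i, ENNReal.ofReal (lam * δ ^ d) ≤ volume (X ∩ tube δ (c i) (e i))) →
    ENNReal.ofReal (C⁻¹ * lam ^ P * δ ^ ε * (∏ r ∈ Finset.Ico 1 M, (A r : ℝ))⁻¹ *
      (Fintype.card ι * δ ^ d)) ≤ volume X

/-- TY1: TY with the exponent `K = 1`. -/
def TY1Stmt : Prop :=
  ∀ d : ℕ, 1 ≤ d → ∀ ε L : ℝ, 0 < ε → 1 ≤ L → ∃ M : ℕ, 1 ≤ M ∧ ∃ θ C : ℝ, 0 < θ ∧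
    0 < C ∧ ∀ δ : ℝ, 0 < δ → δ < 1 → ∀ (N : ℕ) (c e : Fin N → E d), (∀ i, ‖e i‖ = 1) →
    (∀ i i', i ≠ i' → δ ≤ ‖e i - e i'‖) → ∀ A : ℕ → ℕ, CovM L δ M A c e →
    ∃ G : Set (E d), MeasurableSet G ∧
      ∑ i, volume (tube δ (c i) (e i) \ G) ≤
        ENNReal.ofReal (δ ^ θ) * ∑ i, volume (tube δ (c i) (e i)) ∧
      (∀ x ∈ G, mlt δ c e x ≤ C * δ ^ (-ε) * ∏ r ∈ Finset.Ico 1 M, (A r : ℝ)) ∧
      (∀ q : ℝ, 1 + 1 / (d : ℝ) ≤ q → eLpNorm (G.indicator (mlt δ c e)) (ENNReal.ofReal q) volume ≤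
        ENNReal.ofReal (C * δ ^ (-ε) * (∏ r ∈ Finset.Ico 1 M, (A r : ℝ)) *
          (δ ^ ((d : ℝ) / q) * (N : ℝ) ^ (1 - 1 / (q * d)))))

/-! ### Sets -/

/-- The set `Λ` of pairs (point, direction) has upper box dimension at most `s`, with the
constant `C`. -/
def Box {d : ℕ} (Λ : Set (E d × E d)) (s C : ℝ) : Prop :=
  ∀ ρ : ℝ, 0 < ρ → ρ < 1 → ∃ F : Finset (E d × E d), (F.card : ℝ) ≤ C * ρ ^ (-s) ∧
    ∀ l ∈ Λ, ∃ f ∈ F, ‖l.1 - f.1‖ ≤ ρ ∧ ‖l.2 - f.2‖ ≤ ρ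

/-- The packing dimension of `Λ` is at most `s`: for every `s' > s` the set is a countable union of
sets of upper box dimension at most `s'`. -/
def Pack {d : ℕ} (Λ : Set (E d × E d)) (s : ℝ) : Prop :=
  ∀ s' : ℝ, s < s' → ∃ Λj : ℕ → Set (E d × E d), Λ ⊆ ⋃ j, Λj j ∧ ∀ j, ∃ C, Box (Λj j) s' C

/-- The times in the middle half of the unit segment which are in `K`. -/
def Tim {d : ℕ} (K : Set (E d)) (l : E d × E d) : Set ℝ :=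
  {t | 1 / 4 ≤ t ∧ t ≤ 3 / 4 ∧ l.1 + t • l.2 ∈ K}

/-- SA: selection of a subfamily of directions with covering numbers. (Chart `w ↦ edir w` of
`H55/Dense/HDim`, `select`. A `ρ`-cube of directions is bad if more than `ρ ^ (-2 η)` of the balls of
the cover of `Λ` of radius `ρ` meet it; the bad cubes cover at most `C ρ ^ η`. The good set of
directions has outer measure at least `α / 2` if `δ ^ (η / M)` is small against `α`.) -/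
def SAStmt : Prop :=
  ∀ (d M : ℕ) (η C₀ : ℝ), 1 ≤ d → 1 ≤ M → 0 < η → 0 < C₀ → ∃ C₁ : ℝ, 1 ≤ C₁ ∧ ∀ δ α : ℝ, 0 < δ →
    δ < 1 → C₁ * δ ^ (η / M) ≤ α → ∀ Λ : Set (E d × E d), Box Λ (d + η) C₀ →
    ∀ (Ω : Set (Fin d → ℝ)) (x : (Fin d → ℝ) → E d), (∀ w ∈ Ω, ∀ i, 0 ≤ w i ∧ w i ≤ 1) →
    (∀ w ∈ Ω, (x w, Pool.Agent.H55.HDim.edir w) ∈ Λ) → ENNReal.ofReal α ≤ volume Ω →
    ∃ (N : ℕ) (w : Fin N → (Fin d → ℝ)), (∀ i, w i ∈ Ω) ∧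
      (∀ i j, i ≠ j → δ ≤ ‖Pool.Agent.H55.HDim.edir (w i) - Pool.Agent.H55.HDim.edir (w j)‖) ∧
      α ≤ C₁ * δ ^ d * N ∧
      CovM 10 δ M (fun r => ⌈C₁ * (δ ^ ((r : ℝ) / M)) ^ (-(3 * η))⌉₊)
        (fun i => x (w i) + (1 / 2 : ℝ) • Pool.Agent.H55.HDim.edir (w i))
        (fun i => Pool.Agent.H55.HDim.edir (w i))

/-- SB: one scale: a union of `n₀` balls of radius `2 δ` which meets the segments in a proportion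
`β`. (SA, DN with `ε / 4` and `η` small against `ε / (K M)`, `tube_mass` of `H55/Dense/HDim`.) -/
def SBStmt : Prop :=
  ∀ (d : ℕ) (ε : ℝ), 1 ≤ d → 0 < ε → ∃ η P : ℝ, 0 < η ∧ 0 ≤ P ∧ ∀ C₀ : ℝ, 0 < C₀ →
    ∃ c : ℝ, 0 < c ∧ ∀ δ α β : ℝ, 0 < δ → δ ≤ 1 / 2 → 0 < β → β ≤ 1 → c⁻¹ * δ ^ c ≤ α →
    ∀ Λ : Set (E d × E d), Box Λ (d + η) C₀ →
    ∀ (Ω : Set (Fin d → ℝ)) (x : (Fin d → ℝ) → E d), (∀ w ∈ Ω, ∀ i, 0 ≤ w i ∧ w i ≤ 1) →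
    (∀ w ∈ Ω, (x w, Pool.Agent.H55.HDim.edir w) ∈ Λ) → ENNReal.ofReal α ≤ volume Ω →
    ∀ (F : Finset ℕ) (y : ℕ → E d),
    (∀ w ∈ Ω, ∃ Q : Set ℝ, ENNReal.ofReal β ≤ volume Q ∧ ∀ t ∈ Q, (1 / 4 ≤ t ∧ t ≤ 3 / 4) ∧
      ∃ n ∈ F, dist (x w + t • Pool.Agent.H55.HDim.edir w) (y n) ≤ δ) →
    c * β ^ P * α * δ ^ (-((d : ℝ) + 1 - ε)) ≤ F.card

/-- SC: **sticky Kakeya sets have full Hausdorff dimension**, in the chart. (SB for the pieces of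
`Λ`, as `le_dimH_of_dens` of `H55/Dense/HDim`: countable decomposition, cover of small measure,
pigeonhole for the dyadic scales.) -/
def SCStmt : Prop :=
  ∀ (d : ℕ) (K : Set (E d)) (Λ : Set (E d × E d)), 1 ≤ d → Pack Λ d →
    (∀ l ∈ Λ, 0 < volume (Tim K l)) →
    0 < volume {w : Fin d → ℝ | (∀ i, 0 ≤ w i ∧ w i ≤ 1) ∧
      ∃ x, (x, Pool.Agent.H55.HDim.edir w) ∈ Λ} →
    ((d : ℝ≥0∞) + 1) ≤ dimH K

/-- SF: **sticky Kakeya sets have full Hausdorff dimension**, without the chart: a set which meets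
every line of a family in a set of positive length, if the directions of the lines are not a set of
measure zero and the packing dimension of the family is `d`. (SC, permutations and changes of sign
of the coordinates, and `x + (s / 4) e` in place of `x`, `s` an integer: countable unions. The
chart `edir` is a Lipschitz map, `hausdorffMeasure_pi_real`.) -/
def SFStmt : Prop :=
  ∀ (d : ℕ) (K : Set (E d)) (Λ : Set (E d × E d)), 1 ≤ d → Pack Λ d →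
    (∀ l ∈ Λ, ‖l.2‖ = 1 ∧ 0 < volume {t : ℝ | l.1 + t • l.2 ∈ K}) →
    0 < μH[(d : ℝ)] (Prod.snd '' Λ) → dimH K = (d : ℝ≥0∞) + 1

/-- SC2: as SC for sets of lines which are nearly sticky. -/
def SC2Stmt : Prop :=
  ∀ (d : ℕ) (ε : ℝ), 1 ≤ d → 0 < ε → ∃ η : ℝ, 0 < η ∧ ∀ (K : Set (E d)) (Λ : Set (E d × E d)),
    Pack Λ (d + η) → (∀ l ∈ Λ, 0 < volume (Tim K l)) →
    0 < volume {w : Fin d → ℝ | (∀ i, 0 ≤ w i ∧ w i ≤ 1) ∧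
      ∃ x, (x, Pool.Agent.H55.HDim.edir w) ∈ Λ} →
    ENNReal.ofReal ((d : ℝ) + 1 - ε) ≤ dimH K

/-- SF2: as SF for sets of lines which are nearly sticky. -/
def SF2Stmt : Prop :=
  ∀ (d : ℕ) (ε : ℝ), 1 ≤ d → 0 < ε → ∃ η : ℝ, 0 < η ∧ ∀ (K : Set (E d)) (Λ : Set (E d × E d)),
    Pack Λ (d + η) → (∀ l ∈ Λ, ‖l.2‖ = 1 ∧ 0 < volume {t : ℝ | l.1 + t • l.2 ∈ K}) →
    0 < μH[(d : ℝ)] (Prod.snd '' Λ) → ENNReal.ofReal ((d : ℝ) + 1 - ε) ≤ dimH K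

/-- EP: the theorem on local direction entropies for all families with a random time. (KST, as
`H80/STK2/EP`; optional.) -/
def EPTStmt : Prop :=
  ∀ (m : ℕ) (a R : ℝ), 1 < a → 0 < R → ∃ M : ℕ, 1 ≤ M ∧ ∃ θ : ℝ, 0 < θ ∧ ∃ K₀ : ℕ, ∀ K ≥ K₀,
    ∀ F : Fam m (M * K), F.Tm (θ * (M * K)) →
    ∑ r ∈ Finset.range M, CH F.p (F.D ((r + 1) * K)) (fun ω => (F.L (r * K) ω, F.Z ω)) ≤
      a * CH F.p (F.X (M * K)) F.W + R * (M * K)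

end Pool.STE
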