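import Pool.Agent.H90.STE.Join1

/-!
# Board ste2, module SB: one scale
-/

set_option autoImplicit false

namespace Pool.STE

open Finset Real MeasureTheory Metric
open scoped RealInnerProductSpace ENNReal
open Pool.Agent.H49.Ent Pool.Agent.H32.Dense Pool.STK Pool.KA
open Pool.Agent.H53.Kak (E tube)
open Pool.Agent.H55.HDim (edir norm_edir om om_pos tube_mass volume_closedBall_eq)

theorem sb1 (hSA : SAStmt) (hDN : DN1Stmt) : SBStmt := by
  intro d ε hd hε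
  obtain ⟨M, hM, P, C, hP, hC, H⟩ := hDN d hd (ε / 4) 10 (by positivity) (by norm_num)
  have hM0 : (0 : ℝ) < M := by positivity
  have hM1 : (1 : ℝ) ≤ M := by exact_mod_cast hM
  obtain ⟨η, hη⟩ : ∃ η : ℝ, η = ε / (12 * M) := ⟨_, rfl⟩
  have hη0 : 0 < η := by rw [hη]; positivity
  have hηM : 3 * η * M = ε / 4 := by rw [hη]; field_simp; ring
  refine ⟨η, P, hη0, hP, fun C₀ hC₀ => ?_⟩
  obtain ⟨C₁, hC₁, HS⟩ := hSA d M η C₀ hd hM hη0 hC₀
  have hC₁0 : 0 < C₁ := by linarith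
  have hom := om_pos d
  obtain ⟨κ, hκ⟩ : ∃ κ : ℝ, κ = min (om d / 2 ^ (d + 2)) 1 := ⟨_, rfl⟩
  have hκ0 : 0 < κ := by rw [hκ]; exact lt_min (by positivity) one_pos
  have hκ1 : κ ≤ 1 := by rw [hκ]; exact min_le_right _ _
  have hκ2 : κ ≤ om d / 2 ^ (d + 2) := by rw [hκ]; exact min_le_left _ _
  obtain ⟨c', hc'⟩ : ∃ c : ℝ, c = C⁻¹ * κ ^ P * ((2 * C₁) ^ M)⁻¹ * C₁⁻¹ * (2 ^ (d + 1) * om d)⁻¹ :=
    ⟨_, rfl⟩
  have hκP : 0 < κ ^ P := rpow_pos_of_pos hκ0 _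
  have hc'0 : 0 < c' := by rw [hc']; positivity
  obtain ⟨c, hc⟩ : ∃ c : ℝ, c = min c' (min (η / M) C₁⁻¹) := ⟨_, rfl⟩
  have hc0 : 0 < c := by rw [hc]; exact lt_min hc'0 (lt_min (by positivity) (by positivity))
  have hc1 : c ≤ c' := by rw [hc]; exact min_le_left _ _
  have hc2 : c ≤ η / M := by rw [hc]; exact (min_le_right _ _).trans (min_le_left _ _)
  have hc3 : c ≤ C₁⁻¹ := by rw [hc]; exact (min_le_right _ _).trans (min_le_right _ _)
  refine ⟨c, hc0, ?_⟩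
  intro δ α β hδ hδ2 hβ hβ1 hα Λ hΛ Ω x hΩ1 hΩ2 hΩ3 F y hF
  have hδ1 : δ < 1 := by linarith
  have hα1 : C₁ * δ ^ (η / M) ≤ α := by
    refine le_trans ?_ hα
    have h1 : C₁ ≤ c⁻¹ := by
      rw [← inv_inv C₁]
      exact inv_anti₀ hc0 hc3
    have h2 : δ ^ (η / M) ≤ δ ^ c := rpow_le_rpow_of_exponent_ge hδ hδ1.le hc2
    exact mul_le_mul h1 h2 (rpow_nonneg hδ.le _) (by positivity)
  have hα0 : 0 < α := lt_of_lt_of_le (by positivity) hα1
  obtain ⟨N, w, hw, hsep, hN, hcov⟩ := HS δ α hδ hδ1 hα1 Λ hΛ Ω x hΩ1 hΩ2 hΩ3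
  set A : ℕ → ℕ := fun r => ⌈C₁ * (δ ^ ((r : ℝ) / M)) ^ (-(3 * η))⌉₊ with hA
  set X : Set (E d) := ⋃ n ∈ F, closedBall (y n) (2 * δ) with hX
  have hXm : MeasurableSet X := F.measurableSet_biUnion fun n _ => measurableSet_closedBall
  have hlam0 : 0 < β * κ := by positivity
  have hlam1 : β * κ ≤ 1 := by nlinarith
  have hmass : ∀ i, ENNReal.ofReal (β * κ * δ ^ d) ≤ volume (X ∩ tube δ
      (x (w i) + (1 / 2 : ℝ) • edir (w i)) (edir (w i))) := by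
    intro i
    obtain ⟨Q, hQ1, hQ2⟩ := hF (w i) (hw i)
    refine le_trans (ENNReal.ofReal_le_ofReal ?_)
      (tube_mass (norm_edir (w i)) hδ hδ2 F y Q hQ2 hQ1)
    have h1 : β * κ ≤ β * (om d / 2 ^ (d + 2)) := mul_le_mul_of_nonneg_left hκ2 hβ.le
    exact mul_le_mul_of_nonneg_right h1 (by positivity)
  have h1 := H δ hδ hδ1 (Fin N) (fun i => x (w i) + (1 / 2 : ℝ) • edir (w i))
    (fun i => edir (w i)) (fun i => norm_edir _) hsep A hcov (β * κ) X hlam0 hlam1 hXm hmass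
  have h2 : volume X ≤ ENNReal.ofReal ((F.card : ℝ) * ((2 * δ) ^ (d + 1) * om d)) := by
    refine (measure_biUnion_finset_le _ _).trans (le_of_eq ?_)
    have h3 : ∀ n ∈ F, volume (closedBall (y n) (2 * δ)) =
        ENNReal.ofReal ((2 * δ) ^ (d + 1) * om d) := fun n _ =>
      volume_closedBall_eq _ (by positivity)
    rw [Finset.sum_congr rfl h3, Finset.sum_const, nsmul_eq_mul, ← ENNReal.ofReal_natCast,
      ← ENNReal.ofReal_mul (Nat.cast_nonneg _)]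
  have h3 := h1.trans h2
  rw [Fintype.card_fin] at h3
  have h4 := (ENNReal.ofReal_le_ofReal_iff (by positivity)).mp h3
  -- the product of the covering numbers
  have hprod0 : 0 < ∏ r ∈ Finset.Ico 1 M, (A r : ℝ) := by
    have := one_le_prodA hcov
    linarith
  have hprod : ∏ r ∈ Finset.Ico 1 M, (A r : ℝ) ≤ (2 * C₁) ^ M * δ ^ (-(ε / 4)) := by
    have hδη : 1 ≤ δ ^ (-(3 * η)) := one_le_rpow_of_pos_of_le_one_of_nonpos hδ hδ1.le (by linarith)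
    have h5 : ∀ r ∈ Finset.Ico 1 M, (A r : ℝ) ≤ 2 * C₁ * δ ^ (-(3 * η)) := by
      intro r hr
      rw [Finset.mem_Ico] at hr
      have h6 : (δ ^ ((r : ℝ) / M)) ^ (-(3 * η)) = δ ^ ((r : ℝ) / M * (-(3 * η))) :=
        (rpow_mul hδ.le _ _).symm
      have h7 : δ ^ ((r : ℝ) / M * (-(3 * η))) ≤ δ ^ (-(3 * η)) := by
        refine rpow_le_rpow_of_exponent_ge hδ hδ1.le ?_
        have h8 : (r : ℝ) / M ≤ 1 := by
          rw [div_le_one hM0]
          exact_mod_cast hr.2.le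
        nlinarith
      have h9 : 1 ≤ δ ^ ((r : ℝ) / M * (-(3 * η))) := by
        refine one_le_rpow_of_pos_of_le_one_of_nonpos hδ hδ1.le ?_
        have : 0 ≤ (r : ℝ) / M := by positivity
        nlinarith
      have h10 : (A r : ℝ) < C₁ * (δ ^ ((r : ℝ) / M)) ^ (-(3 * η)) + 1 := by
        refine Nat.ceil_lt_add_one ?_
        positivity
      rw [h6] at h10
      nlinarith
    calc ∏ r ∈ Finset.Ico 1 M, (A r : ℝ) ≤ ∏ _r ∈ Finset.Ico 1 M, (2 * C₁ * δ ^ (-(3 * η))) :=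
          Finset.prod_le_prod (fun _ _ => Nat.cast_nonneg _) h5
      _ = (2 * C₁ * δ ^ (-(3 * η))) ^ (M - 1) := by
          rw [Finset.prod_const, Nat.card_Ico]
      _ ≤ (2 * C₁ * δ ^ (-(3 * η))) ^ M :=
          pow_le_pow_right₀ (by nlinarith) (Nat.sub_le _ _)
      _ = (2 * C₁) ^ M * δ ^ (-(ε / 4)) := by
          rw [mul_pow, ← rpow_natCast (δ ^ (-(3 * η))) M, ← rpow_mul hδ.le]
          congr 2
          linarith
  have hinv : ((2 * C₁) ^ M)⁻¹ * δ ^ (ε / 4) ≤ (∏ r ∈ Finset.Ico 1 M, (A r : ℝ))⁻¹ := by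
    have h5 := inv_anti₀ hprod0 hprod
    rw [mul_inv, rpow_neg hδ.le, inv_inv] at h5
    exact h5
  have hNα : α * C₁⁻¹ ≤ (N : ℝ) * δ ^ d := by
    rw [mul_inv_le_iff₀ hC₁0]
    linarith
  have hβP : 0 < β ^ P := rpow_pos_of_pos hβ _
  have hδε : 0 < δ ^ (ε / 4) := rpow_pos_of_pos hδ _
  have h5 : C⁻¹ * (β ^ P * κ ^ P) * δ ^ (ε / 4) * (((2 * C₁) ^ M)⁻¹ * δ ^ (ε / 4)) *
      (α * C₁⁻¹) ≤ (F.card : ℝ) * ((2 * δ) ^ (d + 1) * om d) := by
    refine le_trans ?_ h4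
    rw [mul_rpow hβ.le hκ0.le]
    refine mul_le_mul ?_ hNα (by positivity) (by positivity)
    exact mul_le_mul_of_nonneg_left hinv (by positivity)
  -- conclusion
  have hδd : 0 < δ ^ (d + 1) := by positivity
  have e1 : δ ^ (-((d : ℝ) + 1 - ε)) = δ ^ ε * (δ ^ (d + 1))⁻¹ := by
    rw [show -((d : ℝ) + 1 - ε) = ε - ((d + 1 : ℕ) : ℝ) by push_cast; ring, rpow_sub hδ,
      rpow_natCast, div_eq_mul_inv]
  have e2 : δ ^ ε ≤ δ ^ (ε / 4) * δ ^ (ε / 4) := by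
    rw [← rpow_add hδ]
    exact rpow_le_rpow_of_exponent_ge hδ hδ1.le (by linarith)
  have h6 : c' * β ^ P * α * (δ ^ (ε / 4) * δ ^ (ε / 4) * (δ ^ (d + 1))⁻¹) ≤ F.card := by
    have h7 : c' * β ^ P * α * (δ ^ (ε / 4) * δ ^ (ε / 4) * (δ ^ (d + 1))⁻¹) =
        (C⁻¹ * (β ^ P * κ ^ P) * δ ^ (ε / 4) * (((2 * C₁) ^ M)⁻¹ * δ ^ (ε / 4)) *
          (α * C₁⁻¹)) * ((2 * δ) ^ (d + 1) * om d)⁻¹ := by
      rw [hc', mul_pow 2 δ]
      field_simp
    rw [h7, mul_inv_le_iff₀ (by positivity)]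
    exact h5
  refine le_trans ?_ h6
  rw [e1]
  have h8 : 0 ≤ β ^ P * α := by positivity
  calc c * β ^ P * α * (δ ^ ε * (δ ^ (d + 1))⁻¹)
      ≤ c' * β ^ P * α * (δ ^ ε * (δ ^ (d + 1))⁻¹) := by
        have : c * β ^ P * α ≤ c' * β ^ P * α := by
          rw [mul_assoc, mul_assoc]
          exact mul_le_mul_of_nonneg_right hc1 h8
        exact mul_le_mul_of_nonneg_right this (by positivity)
    _ ≤ c' * β ^ P * α * (δ ^ (ε / 4) * δ ^ (ε / 4) * (δ ^ (d + 1))⁻¹) := by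
        refine mul_le_mul_of_nonneg_left ?_ (by positivity)
        exact mul_le_mul_of_nonneg_right e2 (by positivity)

end Pool.STE
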