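import Pool.Agent.H90.STE.AllT
import Pool.Agent.H90.STE.SB

/-!
# Assembly of board ste2: sets
-/

set_option autoImplicit false

namespace Pool.STE

theorem all_sb : SBStmt := sb1 sa all_dn1

theorem all_sc2 : SC2Stmt := sc2 all_sb

theorem all_sf2 : SF2Stmt := sf2 all_sc2

theorem all_sf : SFStmt := sf all_sc2

end Pool.STE
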