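import Pool.Agent.H90.STE.Join

/-!
# One sequence of scales for shadings and the typical multiplicity, exponent one
-/

set_option autoImplicit false

namespace Pool.STE

open Finset Real MeasureTheory
open scoped RealInnerProductSpace ENNReal
open Pool.Agent.H49.Ent Pool.Agent.H32.Dense Pool.STK Pool.KA
open Pool.Agent.H53.Kak (E tube)

/-- DN follows from DN1. -/
theorem dn_of_dn1 (h : DN1Stmt) : DNStmt := by
  intro d hd ε L hε hL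
  obtain ⟨M, hM, P, C, hP, hC, H⟩ := h d hd ε L hε hL
  refine ⟨M, hM, P, 1, C, hP, zero_le_one, hC, ?_⟩
  intro δ hδ hδ1 ι _ c e he hsep A hA lam X h1 h2 h3 h4
  have := H δ hδ hδ1 ι c e he hsep A hA lam X h1 h2 h3 h4
  rwa [rpow_neg_one]

/-- TY follows from TY1. -/
theorem ty_of_ty1 (h : TY1Stmt) : TYStmt := by
  intro d hd ε L hε hL
  obtain ⟨M, hM, θ, C, hθ, hC, H⟩ := h d hd ε L hε hL
  refine ⟨M, hM, θ, 1, C, hθ, zero_le_one, hC, ?_⟩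
  intro δ hδ hδ1 N c e he hsep A hA
  have := H δ hδ hδ1 N c e he hsep A hA
  simpa only [rpow_one] using this

/-- **All families of tubes**: typical multiplicity and shadings. -/
theorem join1 (hTY : TY1Stmt) (hDN : DN1Stmt) (d : ℕ) (hd : 1 ≤ d) (ε L : ℝ)
    (hε : 0 < ε) (hL : 1 ≤ L) :
    ∃ M : ℕ, 1 ≤ M ∧ ∃ θ P C : ℝ, 0 < θ ∧ 0 ≤ P ∧ 0 < C ∧
      ∀ δ : ℝ, 0 < δ → δ < 1 → ∀ (N : ℕ) (c e : Fin N → E d), (∀ i, ‖e i‖ = 1) →
      (∀ i i', i ≠ i' → δ ≤ ‖e i - e i'‖) → ∀ A : ℕ → ℕ, CovM L δ M A c e →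
      (∀ (lam : ℝ) (X : Set (E d)), 0 < lam → lam ≤ 1 → MeasurableSet X →
        (∀ i, ENNReal.ofReal (lam * δ ^ d) ≤ volume (X ∩ tube δ (c i) (e i))) →
        ENNReal.ofReal (C⁻¹ * lam ^ P * δ ^ ε * (∏ r ∈ Finset.Ico 1 M, (A r : ℝ))⁻¹ *
          (N * δ ^ d)) ≤ volume X) ∧
      ∃ G : Set (E d), MeasurableSet G ∧
        ∑ i, volume (tube δ (c i) (e i) \ G) ≤
          ENNReal.ofReal (δ ^ θ) * ∑ i, volume (tube δ (c i) (e i)) ∧
        (∀ x ∈ G, mlt δ c e x ≤ C * δ ^ (-ε) * ∏ r ∈ Finset.Ico 1 M, (A r : ℝ)) ∧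
        (∀ q : ℝ, 1 + 1 / (d : ℝ) ≤ q →
          eLpNorm (G.indicator (mlt δ c e)) (ENNReal.ofReal q) volume ≤
          ENNReal.ofReal (C * δ ^ (-ε) * (∏ r ∈ Finset.Ico 1 M, (A r : ℝ)) *
            (δ ^ ((d : ℝ) / q) * (N : ℝ) ^ (1 - 1 / (q * d))))) := by
  obtain ⟨M2, hM2, θ, C2, hθ, hC2, H2⟩ := hTY d hd ε L hε hL
  obtain ⟨M3, hM3, P, C3, hP, hC3, H3⟩ := hDN d hd ε L hε hL
  refine ⟨M2 * M3, Nat.one_le_iff_ne_zero.mpr (by positivity), θ, P, max C2 C3, hθ, hP,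
    lt_max_of_lt_left hC2, ?_⟩
  set C := max C2 C3 with hCdef
  have hC2C : C2 ≤ C := le_max_left _ _
  have hC3C : C3 ≤ C := le_max_right _ _
  have hC0 : 0 < C := lt_of_lt_of_le hC2 hC2C
  intro δ hδ hδ1 N c e he hsep A hA
  have hA' : CovM L δ (M3 * M2) A c e := by rw [mul_comm]; exact hA
  have hA2 : CovM L δ M2 (fun r => A (r * M3)) c e := covM_sub hM2 hM3 hA
  have hA3 : CovM L δ M3 (fun r => A (r * M2)) c e := covM_sub hM3 hM2 hA'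
  have hp2 := prod_sub hM3 hA
  have hp3 := prod_sub hM2 hA'
  rw [mul_comm M3 M2] at hp3
  set Q := ∏ r ∈ Finset.Ico 1 (M2 * M3), (A r : ℝ) with hQ
  have hq2 := one_le_prodA hA2
  have hq3 := one_le_prodA hA3
  have hQ1 : 1 ≤ Q := one_le_prodA hA
  have hδε : 0 < δ ^ ε := rpow_pos_of_pos hδ _
  have hδε' : 0 < δ ^ (-ε) := rpow_pos_of_pos hδ _
  have hNd : 0 ≤ (N : ℝ) * δ ^ d := by positivity
  refine ⟨?_, ?_⟩
  · intro lam X hlam hlam1 hX hXt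
    have h3 := H3 δ hδ hδ1 (Fin N) c e he hsep _ hA3 lam X hlam hlam1 hX hXt
    rw [Fintype.card_fin] at h3
    refine le_trans (ENNReal.ofReal_le_ofReal ?_) h3
    refine mul_le_mul_of_nonneg_right ?_ hNd
    have h1 : C⁻¹ ≤ C3⁻¹ := inv_anti₀ hC3 hC3C
    have h2 : Q⁻¹ ≤ (∏ r ∈ Finset.Ico 1 M3, (A (r * M2) : ℝ))⁻¹ :=
      inv_anti₀ (by linarith) hp3
    have hl : 0 < lam ^ P := rpow_pos_of_pos hlam _
    refine mul_le_mul ?_ h2 (by positivity) (by positivity)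
    exact mul_le_mul_of_nonneg_right (mul_le_mul_of_nonneg_right h1 hl.le) hδε.le
  · obtain ⟨G, hG, hG1, hG2, hG3⟩ := H2 δ hδ hδ1 N c e he hsep _ hA2
    have h4 : C2 * δ ^ (-ε) * (∏ r ∈ Finset.Ico 1 M2, (A (r * M3) : ℝ)) ≤
        C * δ ^ (-ε) * Q :=
      mul_le_mul (mul_le_mul_of_nonneg_right hC2C hδε'.le) hp2 (by linarith) (by positivity)
    refine ⟨G, hG, hG1, fun x hx => (hG2 x hx).trans h4, fun q hq => (hG3 q hq).trans ?_⟩
    refine ENNReal.ofReal_le_ofReal ?_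
    exact mul_le_mul_of_nonneg_right h4 (by positivity)

end Pool.STE
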