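import Pool.Agent.H90.STE.Stmts2
import Pool.Agent.H40.STK2.TO2

/-!
# Board ste2, module TX: summation over the cells
-/

set_option autoImplicit false

namespace Pool.STE

open Finset Real MeasureTheory
open scoped RealInnerProductSpace ENNReal
open Pool.Agent.H49.Ent Pool.Agent.H32.Dense Pool.STK Pool.KA
open Pool.Agent.H53.Kak (E tube)
open Pool.Agent.H53.Dns (Mx psl slp)
open Pool.STK.TOV Pool.STK.TO2

namespace TXaux

variable {d : ℕ} {ι : Type}

/-- The slabs which a tube may meet. -/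
noncomputable def slabs (c e : E d) : Finset ℤ :=
  Finset.Icc ⌈(c (kk e) - 2) / hm d⌉ ⌊(c (kk e) + 2) / hm d⌋

lemma mem_slabs {c e : E d} {g : ℤ} : g ∈ slabs c e ↔ |c (kk e) - g * hm d| ≤ 2 := by
  have hh := hm_pos d
  unfold slabs
  rw [Finset.mem_Icc, Int.ceil_le, Int.le_floor, div_le_iff₀ hh, le_div_iff₀ hh, abs_le]
  constructor
  · rintro ⟨h1, h2⟩
    constructor <;> linarith
  · rintro ⟨h1, h2⟩
    constructor <;> linarith

lemma card_slabs (c e : E d) : ((slabs c e).card : ℝ) ≤ 4 / hm d + 1 := by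
  have hh := hm_pos d
  unfold slabs
  rw [Int.card_Icc]
  have h1 := Int.floor_le ((c (kk e) + 2) / hm d)
  have h2 := Int.le_ceil ((c (kk e) - 2) / hm d)
  have h3 : (c (kk e) + 2) / hm d - (c (kk e) - 2) / hm d = 4 / hm d := by
    rw [← sub_div]
    congr 1
    ring
  have h4 : (0 : ℝ) ≤ 4 / hm d := by positivity
  rcases le_total (⌊(c (kk e) + 2) / hm d⌋ + 1 - ⌈(c (kk e) - 2) / hm d⌉) 0 with h5 | h5
  · rw [Int.toNat_of_nonpos h5]
    push_cast
    linarith
  · have h6 : (((⌊(c (kk e) + 2) / hm d⌋ + 1 - ⌈(c (kk e) - 2) / hm d⌉).toNat : ℕ) : ℝ) =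
        ((⌊(c (kk e) + 2) / hm d⌋ + 1 - ⌈(c (kk e) - 2) / hm d⌉ : ℤ) : ℝ) := by
      exact_mod_cast congrArg (fun z : ℤ => (z : ℝ)) (Int.toNat_of_nonneg h5)
    rw [h6]
    push_cast
    linarith

/-- One of the slabs contains a constant part. -/
lemma exists_slab {δ lam : ℝ} (hδ : 0 < δ) (hδ1 : δ < 1) (hlam : 0 < lam) {c e : E d}
    (he : ‖e‖ = 1) {X : Set (E d)}
    (hX : ENNReal.ofReal (lam * δ ^ d) ≤ volume (X ∩ tube δ c e)) :
    ∃ g ∈ slabs c e, ENNReal.ofReal (1 / (4 / hm d + 1) * lam * δ ^ d) ≤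
      volume (X ∩ tube δ c e ∩ sl (kk e) g) := by
  have hh := hm_pos d
  have hQ : 0 < 4 / hm d + 1 := by positivity
  by_contra hcon
  push Not at hcon
  have hsub : X ∩ tube δ c e ⊆ ⋃ g ∈ slabs c e, X ∩ tube δ c e ∩ sl (kk e) g := by
    intro x hx
    have hs : x ∈ sl (kk e) ⌊x (kk e) / hm d⌋ := by
      constructor
      · rw [← le_div_iff₀ hh]
        exact Int.floor_le _
      · rw [← div_lt_iff₀ hh]
        exact Int.lt_floor_add_one _
    exact Set.mem_iUnion₂.mpr ⟨_, mem_slabs.2 (height hδ1 he hx.2 hs), hx, hs⟩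
  have h1 : volume (X ∩ tube δ c e) ≤ ∑ g ∈ slabs c e, volume (X ∩ tube δ c e ∩ sl (kk e) g) :=
    (measure_mono hsub).trans (measure_biUnion_finset_le _ _)
  have h0 : 0 < ENNReal.ofReal (lam * δ ^ d) := ENNReal.ofReal_pos.mpr (by positivity)
  have hne : (slabs c e).Nonempty := by
    by_contra hemp
    rw [Finset.not_nonempty_iff_eq_empty] at hemp
    rw [hemp, Finset.sum_empty] at h1
    exact absurd (h0.trans_le (hX.trans h1)) (lt_irrefl _)
  have h2 : ∑ g ∈ slabs c e, volume (X ∩ tube δ c e ∩ sl (kk e) g) <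
      ∑ _g ∈ slabs c e, ENNReal.ofReal (1 / (4 / hm d + 1) * lam * δ ^ d) :=
    ENNReal.sum_lt_sum_of_nonempty hne fun g hg => hcon g hg
  rw [Finset.sum_const, nsmul_eq_mul, ← ENNReal.ofReal_natCast,
    ← ENNReal.ofReal_mul (Nat.cast_nonneg _)] at h2
  have h3 : ENNReal.ofReal (((slabs c e).card : ℝ) * (1 / (4 / hm d + 1) * lam * δ ^ d)) ≤
      ENNReal.ofReal (lam * δ ^ d) := by
    refine ENNReal.ofReal_le_ofReal ?_
    have h4 := card_slabs c e
    have h5 : 0 ≤ 1 / (4 / hm d + 1) * lam * δ ^ d := by positivity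
    calc ((slabs c e).card : ℝ) * (1 / (4 / hm d + 1) * lam * δ ^ d)
        ≤ (4 / hm d + 1) * (1 / (4 / hm d + 1) * lam * δ ^ d) := mul_le_mul_of_nonneg_right h4 h5
      _ = lam * δ ^ d := by field_simp
  exact absurd ((hX.trans h1).trans_lt (h2.trans_le h3)) (lt_irrefl _)

end TXaux

open TXaux in
theorem tx : TXStmt := by
  classical
  intro d
  have hh := hm_pos d
  have hQ : 0 < 4 / hm d + 1 := by positivity
  obtain ⟨c₆, hc₆⟩ : ∃ c : ℝ, c = min (1 / (4 / hm d + 1)) (1 / (2 * (d + 1) * 7 ^ d)) := ⟨_, rfl⟩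
  have hc0 : 0 < c₆ := by rw [hc₆]; exact lt_min (by positivity) (by positivity)
  have hc1 : c₆ ≤ 1 / (4 / hm d + 1) := by rw [hc₆]; exact min_le_left _ _
  have hc2 : c₆ ≤ 1 / (2 * (d + 1) * 7 ^ d) := by rw [hc₆]; exact min_le_right _ _
  refine ⟨c₆, hc0, fun δ B lam hδ hδ1 hB hlam ι _ c e X hX he hXt hcell => ?_⟩
  choose g hg1 hg2 using fun i => exists_slab hδ hδ1 hlam (he i) (hXt i)
  set cl : ι → Lab d := fun i => lab (c i) (e i) (g i) with hcl
  have hlabs : ∀ i, cl i ∈ labs (c i) (e i) := fun i =>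
    mem_labs.2 ⟨rfl, mem_slabs.1 (hg1 i)⟩
  set I : Finset (Lab d) := Finset.univ.image cl with hI
  set S : Lab d → Set (E d) := fun a =>
    X ∩ (⋃ i : {i // cl i = a}, tube δ (c i) (e i)) ∩ sl a.1 a.2.2.1 with hS
  have hSm : ∀ a, MeasurableSet (S a) := fun a =>
    (hX.inter (MeasurableSet.iUnion fun i => Pool.Agent.H53.Kak.measurableSet_tube _ _ _)).inter
      (sl_meas _ _)
  have hK : ∀ x : E d, (I.filter (fun a => x ∈ S a)).card ≤ 2 * (d + 1) * 7 ^ d := by
    intro x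
    have hsub : I.filter (fun a => x ∈ S a) ⊆
        (Finset.univ : Finset (Fin (d + 1) × Bool)).biUnion (near x) := by
      intro a ha
      rw [Finset.mem_filter] at ha
      obtain ⟨-, ⟨-, hx1⟩, hx2⟩ := ha
      obtain ⟨i, hi⟩ := Set.mem_iUnion.mp hx1
      have h2 : lab (c i) (e i) (g i) = a := i.2
      have h3 : kk (e i) = a.1 := congrArg (fun z : Lab d => z.1) h2
      have h5 : g i = a.2.2.1 := congrArg (fun z : Lab d => z.2.2.1) h2
      have h1 := mem_near2 hδ hδ1 (he i) hi (g := g i) (by rw [h3, h5]; exact hx2)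
      rw [h2] at h1
      rw [Finset.mem_biUnion]
      exact ⟨(a.1, a.2.1), Finset.mem_univ _, h1⟩
    refine (Finset.card_le_card hsub).trans ((Finset.card_biUnion_le_card_mul _ _ (7 ^ d)
      fun a _ => card_near x a).trans (le_of_eq ?_))
    rw [Finset.card_univ, Fintype.card_prod, Fintype.card_fin, Fintype.card_bool]
    ring
  have h1 := Pool.Agent.H32.AKT.sum_measure_le (volume : Measure (E d)) I S
    (fun a _ => hSm a) hX (fun a _ x hx => hx.1.1) hK
  have h2 : ∑ a ∈ I, ENNReal.ofReal (B * Fintype.card {i // cl i = a}) ≤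
      ∑ a ∈ I, volume (S a) := by
    refine Finset.sum_le_sum fun a ha => ?_
    obtain ⟨i₀, -, hi₀⟩ := Finset.mem_image.mp ha
    have hne : Nonempty {i // cl i = a} := ⟨⟨i₀, hi₀⟩⟩
    have hin : ∀ i : {i // cl i = a}, a ∈ labs (c i) (e i) := fun i => by
      have := hlabs i.1
      rw [i.2] at this
      exact this
    have H := TO2.cell_of c e he a
    have H2 : Cell2 a.1 a.2.2.1 a.2.2.2 (fun i : {i // cl i = a} => c i)
        (fun i : {i // cl i = a} => e i) :=
      ⟨fun i => H.unit ⟨i.1, hin i⟩, fun i => H.mx ⟨i.1, hin i⟩,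
        H.sg.imp (fun h i => h ⟨i.1, hin i⟩) (fun h i => h ⟨i.1, hin i⟩),
        fun i => H.ht ⟨i.1, hin i⟩, fun i => H.ps ⟨i.1, hin i⟩⟩
    refine hcell {i // cl i = a} (fun i => i.1) a.1 a.2.2.1 a.2.2.2 Subtype.val_injective H2 ?_
    intro i
    have h2 : lab (c i) (e i) (g i) = a := i.2
    have h3 : kk (e i) = a.1 := congrArg (fun z : Lab d => z.1) h2
    have h5 : g i = a.2.2.1 := congrArg (fun z : Lab d => z.2.2.1) h2
    have h6 := hg2 i.1
    rw [h3, h5] at h6
    refine le_trans (ENNReal.ofReal_le_ofReal ?_) h6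
    have h7 : 0 ≤ lam * δ ^ d := by positivity
    calc c₆ * lam * δ ^ d = c₆ * (lam * δ ^ d) := by ring
      _ ≤ 1 / (4 / hm d + 1) * (lam * δ ^ d) := mul_le_mul_of_nonneg_right hc1 h7
      _ = 1 / (4 / hm d + 1) * lam * δ ^ d := by ring
  have h3 : ∑ a ∈ I, ENNReal.ofReal (B * Fintype.card {i // cl i = a}) =
      ENNReal.ofReal (B * Fintype.card ι) := by
    rw [← ENNReal.ofReal_sum_of_nonneg fun a _ => by positivity, ← Finset.mul_sum]
    congr 2
    have := Finset.card_eq_sum_card_image cl (Finset.univ : Finset ι)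
    rw [Finset.card_univ] at this
    rw [this]
    push_cast
    refine Finset.sum_congr rfl fun a _ => ?_
    rw [Fintype.card_subtype]
  rw [h3] at h2
  have h4 := h2.trans h1
  have hBn : 0 ≤ B * Fintype.card ι := by positivity
  have e1 : c₆ * B * Fintype.card ι ≤
      (1 / (2 * ((d : ℝ) + 1) * 7 ^ d)) * (B * Fintype.card ι) := by
    rw [mul_assoc]
    exact mul_le_mul_of_nonneg_right hc2 hBn
  refine (ENNReal.ofReal_le_ofReal e1).trans ?_
  rw [ENNReal.ofReal_mul (by positivity)]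
  calc ENNReal.ofReal (1 / (2 * ((d : ℝ) + 1) * 7 ^ d)) * ENNReal.ofReal (B * Fintype.card ι)
      ≤ ENNReal.ofReal (1 / (2 * ((d : ℝ) + 1) * 7 ^ d)) *
        (((2 * (d + 1) * 7 ^ d : ℕ) : ENNReal) * volume X) := by gcongr
    _ = volume X := by
        rw [← mul_assoc, ← ENNReal.ofReal_natCast, ← ENNReal.ofReal_mul (by positivity)]
        have : 1 / (2 * ((d : ℝ) + 1) * 7 ^ d) * ((2 * (d + 1) * 7 ^ d : ℕ) : ℝ) = 1 := by
          push_cast
          field_simp
        rw [this, ENNReal.ofReal_one, one_mul]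

end Pool.STE
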