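import Pool.Agent.H21.STE.All
import Pool.Agent.H90.STK.All2
import Pool.Agent.H90.STE.Join1
import Pool.Agent.H90.STE.TX
import Pool.Agent.H80.STE.EPT
import Pool.Agent.H80.STE.CE1
import Pool.Agent.H84.STE.GE
import Pool.Agent.H34.STE.DN1
import Pool.Agent.H73.STE.TY1
import Pool.Agent.H55.STE.SA
import Pool.Agent.H27.STE.SC
import Pool.Agent.H63.STE.SF

/-!
# Assembly of board ste2
-/

set_option autoImplicit false

namespace Pool.STE

theorem all_ept : EPTStmt := ept kst

theorem all_ce1 : CE1Stmt :=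
  ce1 all_ept Pool.STK.ts2_thm (Pool.STK.td2_thm Pool.STK.uni_thm) Pool.STK.tcd_thm
    Pool.STK.spa_thm

theorem all_dn1 : DN1Stmt := dn1 all_ce1 ge tx Pool.STK.tcd_thm

theorem all_ty1 : TY1Stmt := ty1 all_dn1

theorem all_dn : DNStmt := dn_of_dn1 all_dn1

end Pool.STE
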