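import Pool.Agent.H9.KA.Defs
import Pool.Agent.H90.STK.Stmts

/-!
# Sticky families of lines with a random time: definitions
-/

set_option autoImplicit false

namespace Pool.STE

open Finset Real
open Pool.Agent.H49.Ent Pool.Agent.H32.Dense Pool.STK Pool.KA

variable {m J : ℕ}

/-- Stickiness of a family. -/
def Stk (F : Fam m J) (ε : ℝ) : Prop :=
  ∀ j ≤ J, CH F.p (Fl F.u j) (fun ω => (F.D j ω, F.Z ω)) ≤ ε * J

/-- The inequality with defect `R` for all `ε`-sticky families of resolution `J` whose times are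
uniform up to `θ J`. -/
def GoodT (m : ℕ) (a R ε θ : ℝ) (J : ℕ) : Prop :=
  ∀ F : Fam m J, F.Tm (θ * J) → Stk F ε → CH F.p (F.D J) F.Z ≤ a * CH F.p (F.X J) F.W + R * J

/-- The same for small `ε`, `θ` and large `J`. -/
def GoodE (m : ℕ) (a R : ℝ) : Prop :=
  ∃ ε > 0, ∃ θ > 0, ∃ J₀ : ℕ, ∀ J ≥ J₀, GoodT m a R ε θ J

/-- **The sticky theorem for lines with sets of times.** -/
def KST (m : ℕ) : Prop := ∀ a R : ℝ, 1 < a → 0 < R → GoodE m a R

/-! ### Quantities of a family -/

/-- The coarse line at the beginning of window number `r`, the time and the side information. -/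
noncomputable def bT (F : Fam m J) (k r : ℕ) (ω : F.Ω) :
    ((Fin m → ℤ) × (Fin m → ℤ)) × (ℕ × F.ζ) := (F.L (r * k) ω, F.W ω)

/-- Value of the functional in window number `r`. -/
noncomputable def vT (a : ℝ) (F : Fam m J) (k r : ℕ) : ℝ :=
  CH F.p (F.D ((r + 1) * k)) (fun ω => (F.L (r * k) ω, F.Z ω)) -
    a * CH F.p (F.X ((r + 1) * k)) (bT F k r)

/-- Information about the coarse line in the fine position given the coarse position. -/
noncomputable def iT (F : Fam m J) (k r : ℕ) : ℝ :=
  CH F.p (F.X ((r + 1) * k)) (fun ω => (F.X (r * k) ω, F.W ω)) -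
    CH F.p (F.X ((r + 1) * k)) (bT F k r)

/-- The difference of the positions of two samples at the beginning of the window of length
`2 ^ (-k)` of the time, rounded at scale `2 ^ (-j)`. -/
noncomputable def zT (F : Fam m J) (k j : ℕ) (w : F.Ω × F.Ω) : Fin m → ℤ :=
  fl j fun i => F.x1 k w.2 i - F.x1 k w.1 i

/-- Entropy of differences of positions minus entropy of positions in window `r`, for two copies
which are conditionally independent given the coarse line, the time and the side information. -/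
noncomputable def hT (F : Fam m J) (k r : ℕ) : ℝ :=
  CH (dbl F.p (bT F k r)) (fun w => F.X ((r + 1) * k) w.2 - F.X ((r + 1) * k) w.1)
      (fun w => bT F k r w.1) - CH F.p (F.X ((r + 1) * k)) (bT F k r)

/-- Information of the difference on the fine position given the coarse position. -/
noncomputable def tT (F : Fam m J) (k r : ℕ) : ℝ :=
  CH (dbl F.p (bT F k r)) (zT F k ((r + 1) * k)) (fun w => (F.X (r * k) w.1, F.W w.1)) -
    CH (dbl F.p (bT F k r)) (zT F k ((r + 1) * k)) (fun w => (F.X ((r + 1) * k) w.1, F.W w.1))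

/-- The law of the sample and its copies. -/
noncomputable def pT (F : Fam m J) (k N : ℕ) : F.Ω × (Fin N → F.Ω) → ℝ :=
  multi F.p (fun r : Fin N => bT F k r)

/-- The vector of the differences. -/
noncomputable def yT (F : Fam m J) (k N : ℕ) (w : F.Ω × (Fin N → F.Ω)) (r : Fin N) :
    Fin m → ℤ := zT F k (((r : ℕ) + 1) * k) (w.1, w.2 r)

/-- Information about the line in the differences. -/
noncomputable def jT (F : Fam m J) (k N : ℕ) : ℝ :=
  CH (pT F k N) (yT F k N) (fun w => F.W w.1) - CH (pT F k N) (yT F k N) (fun w => w.1)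

/-- The sum of the informations, with rounding errors. -/
noncomputable def qT (F : Fam m J) (k N : ℕ) : ℝ :=
  ∑ r ∈ Finset.range N, (iT F k r + 3 * cc m)

/-- The first error term (`e` is the deficit of the time). -/
noncomputable def B1 (m : ℕ) (a η ε e : ℝ) (N k : ℕ) : ℝ :=
  2 * η * (N * k) + ε * N * (N * k) + (2 * a * N + 1) * cc m + a * N * e

/-- The second error term. -/
noncomputable def B2T (m : ℕ) (a η ε e : ℝ) (N k : ℕ) : ℝ :=
  2 * η * (N * k) + m * (k * Real.log 2) + cc m + e + B1 m a η ε e N k + 2 * a * N * cc m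

/-- The third error term. -/
noncomputable def B3T (m : ℕ) (a η ε e : ℝ) (N k : ℕ) : ℝ :=
  B2T m a η ε e N k / (a - 1) + (B1 m a η ε e N k + 2 * a * N * cc m) / a + N * cc m

/-! ### Cubes of times -/

/-- A family of lines with a cube of times: the vertex `w ⊆ {0, …, n - 1}` is
`S w = S ∅ + ∑ i ∈ w, h i`; the shape `h` is part of the side information. -/
structure Cub (m J n : ℕ) : Type 1 where
  /-- the family (its own time is not used) -/
  F : Fam m J
  /-- the shape -/
  h : F.Ω → ℕ → ℤ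
  /-- the times -/
  S : Finset ℕ → F.Ω → ℕ
  tim : ∀ w ω, S w ω < 2 ^ J
  cub : ∀ w, w ⊆ Finset.range n → ∀ ω, 0 < F.p ω → (S w ω : ℤ) = S ∅ ω + ∑ i ∈ w, h ω i
  hz : ∀ ω ω', F.Z ω = F.Z ω' → ∀ i < n, h ω i = h ω' i

/-- The family with the time of the vertex `w`. -/
def Cub.ver {n : ℕ} (C : Cub m J n) (w : Finset ℕ) : Fam m J where
  Ω := C.F.Ω
  ζ := C.F.ζ
  fin := C.F.fin
  p := C.F.p
  u := C.F.u
  d := C.F.d
  T := C.S w
  Z := C.F.Z
  isLaw := C.F.isLaw
  dir := C.F.dir
  tim := C.tim w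

/-- The mean logarithm of the inverse of the edge number `i` of the cube. -/
noncomputable def Cub.lam {n : ℕ} (C : Cub m J n) (i : ℕ) : ℝ :=
  ∑ ω, C.F.p ω * Real.log (2 ^ J / max 1 |(C.h ω i : ℝ)|)

/-! ### Integer lines with `n` differences -/

/-- Position and `n` differences of positions. -/
abbrev QL (m n : ℕ) : Type := (Fin m → ℤ) × (Fin n → Fin m → ℤ)

/-- The slice of the vertex `w`. -/
def evq {m n : ℕ} (w : Finset (Fin n)) (l : QL m n) : Fin m → ℤ := l.1 + ∑ i ∈ w, l.2 i

/-- The sum of `2 ^ n` independent copies. -/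
def TQ {Ω : Type} {m n : ℕ} (A : Ω → QL m n) (w : Finset (Fin n) → Ω) : QL m n := ∑ x, A (w x)

/-- Coordinates bounded by `M`. -/
def BdQ {Ω : Type} {m n : ℕ} (A : Ω → QL m n) (M : ℝ) : Prop :=
  ∀ ω c, |((A ω).1 c : ℝ)| ≤ M ∧ ∀ i, |((A ω).2 i c : ℝ)| ≤ M

/-- The differences are proportional to `h`, up to `E`. -/
def ClQ {Ω : Type} {m n : ℕ} (A : Ω → QL m n) (h : Fin n → ℝ) (y : Ω → Fin m → ℝ) (E : ℝ) :
    Prop := ∀ ω i c, |((A ω).2 i c : ℝ) - h i * y ω c| ≤ E

/-- The number `2 ^ n - binom(n, n / 2)`. -/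
noncomputable def KQ (n : ℕ) : ℝ := 2 ^ n - (n.choose (n / 2) : ℝ)

end Pool.STE
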