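import Pool.Agent.H90.STE.Stmts2

/-!
# One sequence of scales for several statements
-/

set_option autoImplicit false

namespace Pool.STE

open Finset Real MeasureTheory
open scoped RealInnerProductSpace ENNReal
open Pool.Agent.H49.Ent Pool.Agent.H32.Dense Pool.STK Pool.KA
open Pool.Agent.H53.Kak (E tube)

/-- Coverings at the scales `δ ^ (r / (M k))` are coverings at the scales `δ ^ (r / M)`. -/
lemma covM_sub {d : ℕ} {ι : Type} {L δ : ℝ} {M k : ℕ} (hM : 1 ≤ M) (hk : 1 ≤ k) {A : ℕ → ℕ}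
    {c e : ι → E d} (h : CovM L δ (M * k) A c e) : CovM L δ M (fun r => A (r * k)) c e := by
  intro r hr1 hr2
  have h1 : 1 ≤ r * k := Nat.one_le_iff_ne_zero.mpr (by positivity)
  have h2 : r * k < M * k := Nat.mul_lt_mul_of_pos_right hr2 (by omega)
  obtain ⟨h3, h4⟩ := h (r * k) h1 h2
  refine ⟨h3, ?_⟩
  have h5 : (((r * k : ℕ) : ℝ) / ((M * k : ℕ) : ℝ)) = (r : ℝ) / M := by
    have hk0 : (k : ℝ) ≠ 0 := by positivity
    have hM0 : (M : ℝ) ≠ 0 := by positivity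
    push_cast
    field_simp
  rw [h5] at h4
  exact h4

lemma covM_one {d : ℕ} {ι : Type} {L δ : ℝ} {M : ℕ} {A : ℕ → ℕ} {c e : ι → E d}
    (h : CovM L δ M A c e) (r : ℕ) (hr : r ∈ Finset.Ico 1 M) : (1 : ℝ) ≤ A r := by
  rw [Finset.mem_Ico] at hr
  exact_mod_cast (h r hr.1 hr.2).1

lemma one_le_prodA {d : ℕ} {ι : Type} {L δ : ℝ} {M : ℕ} {A : ℕ → ℕ} {c e : ι → E d}
    (h : CovM L δ M A c e) : (1 : ℝ) ≤ ∏ r ∈ Finset.Ico 1 M, (A r : ℝ) := by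
  calc (1 : ℝ) = ∏ r ∈ Finset.Ico 1 M, (1 : ℝ) := by simp
    _ ≤ ∏ r ∈ Finset.Ico 1 M, (A r : ℝ) :=
      Finset.prod_le_prod (fun _ _ => zero_le_one) (covM_one h)

/-- The product of the covering numbers over the coarser sequence of scales is smaller. -/
lemma prod_sub {d : ℕ} {ι : Type} {L δ : ℝ} {M k : ℕ} (hk : 1 ≤ k) {A : ℕ → ℕ}
    {c e : ι → E d} (h : CovM L δ (M * k) A c e) :
    ∏ r ∈ Finset.Ico 1 M, (A (r * k) : ℝ) ≤ ∏ r ∈ Finset.Ico 1 (M * k), (A r : ℝ) := by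
  classical
  have hinj : Set.InjOn (fun r => r * k) (Finset.Ico 1 M : Set ℕ) := by
    intro a _ b _ hab
    exact Nat.eq_of_mul_eq_mul_right (by omega) hab
  have h1 : ∏ r ∈ Finset.Ico 1 M, (A (r * k) : ℝ) =
      ∏ r ∈ (Finset.Ico 1 M).image (fun r => r * k), (A r : ℝ) := by
    rw [Finset.prod_image]
    exact hinj
  rw [h1]
  have hsub : (Finset.Ico 1 M).image (fun r => r * k) ⊆ Finset.Ico 1 (M * k) := by
    intro x hx
    obtain ⟨r, hr, rfl⟩ := Finset.mem_image.mp hx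
    rw [Finset.mem_Ico] at hr ⊢
    refine ⟨Nat.one_le_iff_ne_zero.mpr ?_, Nat.mul_lt_mul_of_pos_right hr.2 (by omega)⟩
    have := hr.1
    positivity
  rw [← Finset.prod_sdiff hsub]
  have h2 : (1 : ℝ) ≤ ∏ r ∈ Finset.Ico 1 (M * k) \ (Finset.Ico 1 M).image (fun r => r * k),
      (A r : ℝ) := by
    calc (1 : ℝ) = ∏ r ∈ Finset.Ico 1 (M * k) \ (Finset.Ico 1 M).image (fun r => r * k),
          (1 : ℝ) := by simp
      _ ≤ _ := Finset.prod_le_prod (fun _ _ => zero_le_one)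
        (fun r hr => covM_one h r (Finset.mem_sdiff.mp hr).1)
  exact le_mul_of_one_le_left (Finset.prod_nonneg fun r _ => Nat.cast_nonneg _) h2

/-- **All families of tubes**: union, typical multiplicity and shadings. -/
theorem join (hTU : TU2Stmt) (hTY : TYStmt) (hDN : DNStmt) (d : ℕ) (hd : 1 ≤ d) (ε L : ℝ)
    (hε : 0 < ε) (hL : 1 ≤ L) :
    ∃ M : ℕ, 1 ≤ M ∧ ∃ θ P K C : ℝ, 0 < θ ∧ 0 ≤ P ∧ 0 ≤ K ∧ 0 < C ∧
      ∀ δ : ℝ, 0 < δ → δ < 1 → ∀ (N : ℕ) (c e : Fin N → E d), (∀ i, ‖e i‖ = 1) →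
      (∀ i i', i ≠ i' → δ ≤ ‖e i - e i'‖) → ∀ A : ℕ → ℕ, CovM L δ M A c e →
      ENNReal.ofReal (C⁻¹ * δ ^ ε * (∏ r ∈ Finset.Ico 1 M, (A r : ℝ))⁻¹ * (N * δ ^ d)) ≤
        volume (⋃ i, tube δ (c i) (e i)) ∧
      (∀ (lam : ℝ) (X : Set (E d)), 0 < lam → lam ≤ 1 → MeasurableSet X →
        (∀ i, ENNReal.ofReal (lam * δ ^ d) ≤ volume (X ∩ tube δ (c i) (e i))) →
        ENNReal.ofReal (C⁻¹ * lam ^ P * δ ^ ε * (∏ r ∈ Finset.Ico 1 M, (A r : ℝ)) ^ (-K) *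
          (N * δ ^ d)) ≤ volume X) ∧
      ∃ G : Set (E d), MeasurableSet G ∧
        ∑ i, volume (tube δ (c i) (e i) \ G) ≤
          ENNReal.ofReal (δ ^ θ) * ∑ i, volume (tube δ (c i) (e i)) ∧
        (∀ x ∈ G, mlt δ c e x ≤ C * δ ^ (-ε) * (∏ r ∈ Finset.Ico 1 M, (A r : ℝ)) ^ K) ∧
        (∀ q : ℝ, 1 + 1 / (d : ℝ) ≤ q →
          eLpNorm (G.indicator (mlt δ c e)) (ENNReal.ofReal q) volume ≤
          ENNReal.ofReal (C * δ ^ (-ε) * (∏ r ∈ Finset.Ico 1 M, (A r : ℝ)) ^ K *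
            (δ ^ ((d : ℝ) / q) * (N : ℝ) ^ (1 - 1 / (q * d))))) := by
  obtain ⟨M1, hM1, C1, hC1, H1⟩ := hTU d hd ε L hε hL
  obtain ⟨M2, hM2, θ, K2, C2, hθ, hK2, hC2, H2⟩ := hTY d hd ε L hε hL
  obtain ⟨M3, hM3, P, K3, C3, hP, hK3, hC3, H3⟩ := hDN d hd ε L hε hL
  have hM23 : 1 ≤ M2 * M3 := Nat.one_le_iff_ne_zero.mpr (by positivity)
  have hM13 : 1 ≤ M1 * M3 := Nat.one_le_iff_ne_zero.mpr (by positivity)
  have hM12 : 1 ≤ M1 * M2 := Nat.one_le_iff_ne_zero.mpr (by positivity)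
  refine ⟨M1 * (M2 * M3), Nat.one_le_iff_ne_zero.mpr (by positivity), θ, P, max K2 K3,
    max (max C1 C2) C3, hθ, hP, le_max_of_le_left hK2,
    lt_max_of_lt_left (lt_max_of_lt_left hC1), ?_⟩
  set C := max (max C1 C2) C3 with hCdef
  set K := max K2 K3 with hKdef
  have hC1C : C1 ≤ C := (le_max_left C1 C2).trans (le_max_left _ C3)
  have hC2C : C2 ≤ C := (le_max_right C1 C2).trans (le_max_left _ C3)
  have hC3C : C3 ≤ C := le_max_right _ _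
  have hC0 : 0 < C := lt_of_lt_of_le hC1 hC1C
  intro δ hδ hδ1 N c e he hsep A hA
  have hA1 : CovM L δ M1 (fun r => A (r * (M2 * M3))) c e := covM_sub hM1 hM23 hA
  have hA' : CovM L δ (M2 * (M1 * M3)) A c e := by
    have : M2 * (M1 * M3) = M1 * (M2 * M3) := by ring
    rw [this]; exact hA
  have hA'' : CovM L δ (M3 * (M1 * M2)) A c e := by
    have : M3 * (M1 * M2) = M1 * (M2 * M3) := by ring
    rw [this]; exact hA
  have hA2 : CovM L δ M2 (fun r => A (r * (M1 * M3))) c e := covM_sub hM2 hM13 hA'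
  have hA3 : CovM L δ M3 (fun r => A (r * (M1 * M2))) c e := covM_sub hM3 hM12 hA''
  have hp1 := prod_sub hM23 hA
  have hp2 := prod_sub hM13 hA'
  have hp3 := prod_sub hM12 hA''
  have e2 : M2 * (M1 * M3) = M1 * (M2 * M3) := by ring
  have e3 : M3 * (M1 * M2) = M1 * (M2 * M3) := by ring
  rw [e2] at hp2
  rw [e3] at hp3
  set Q := ∏ r ∈ Finset.Ico 1 (M1 * (M2 * M3)), (A r : ℝ) with hQ
  have hq1 := one_le_prodA hA1
  have hq2 := one_le_prodA hA2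
  have hq3 := one_le_prodA hA3
  have hQ1 : 1 ≤ Q := one_le_prodA hA
  have hδε : 0 < δ ^ ε := rpow_pos_of_pos hδ _
  have hδε' : 0 < δ ^ (-ε) := rpow_pos_of_pos hδ _
  have hNd : 0 ≤ (N : ℝ) * δ ^ d := by positivity
  have hup : ∀ q K' C' : ℝ, 1 ≤ q → q ≤ Q → 0 ≤ K' → K' ≤ K → 0 < C' → C' ≤ C →
      C' * δ ^ (-ε) * q ^ K' ≤ C * δ ^ (-ε) * Q ^ K := by
    intro q K' C' h1 h2 h3 h4 h5 h6
    have h7 : q ^ K' ≤ Q ^ K := (rpow_le_rpow (by linarith) h2 h3).trans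
      (rpow_le_rpow_of_exponent_le hQ1 h4)
    have h8 : C' * δ ^ (-ε) ≤ C * δ ^ (-ε) := mul_le_mul_of_nonneg_right h6 hδε'.le
    exact mul_le_mul h8 h7 (rpow_nonneg (by linarith) _) (by positivity)
  refine ⟨?_, ?_, ?_⟩
  · refine le_trans (ENNReal.ofReal_le_ofReal ?_) (H1 δ hδ hδ1 N c e he hsep _ hA1)
    refine mul_le_mul_of_nonneg_right ?_ hNd
    have h1 : C⁻¹ ≤ C1⁻¹ := inv_anti₀ hC1 hC1C
    have h2 : Q⁻¹ ≤ (∏ r ∈ Finset.Ico 1 M1, (A (r * (M2 * M3)) : ℝ))⁻¹ :=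
      inv_anti₀ (by linarith) hp1
    exact mul_le_mul (mul_le_mul_of_nonneg_right h1 hδε.le) h2 (by positivity) (by positivity)
  · intro lam X hlam hlam1 hX hXt
    have h3 := H3 δ hδ hδ1 (Fin N) c e he hsep _ hA3 lam X hlam hlam1 hX hXt
    rw [Fintype.card_fin] at h3
    refine le_trans (ENNReal.ofReal_le_ofReal ?_) h3
    refine mul_le_mul_of_nonneg_right ?_ hNd
    have h1 : C⁻¹ ≤ C3⁻¹ := inv_anti₀ hC3 hC3C
    have h2 : Q ^ (-K) ≤ (∏ r ∈ Finset.Ico 1 M3, (A (r * (M1 * M2)) : ℝ)) ^ (-K3) := by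
      rw [rpow_neg (by linarith), rpow_neg (by linarith)]
      refine inv_anti₀ (rpow_pos_of_pos (by linarith) _) ?_
      exact (rpow_le_rpow (by linarith) hp3 hK3).trans
        (rpow_le_rpow_of_exponent_le hQ1 (le_max_right _ _))
    have hl : 0 < lam ^ P := rpow_pos_of_pos hlam _
    refine mul_le_mul ?_ h2 (rpow_nonneg (by linarith) _) (by positivity)
    exact mul_le_mul_of_nonneg_right (mul_le_mul_of_nonneg_right h1 hl.le) hδε.le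
  · obtain ⟨G, hG, hG1, hG2, hG3⟩ := H2 δ hδ hδ1 N c e he hsep _ hA2
    have h4 := hup _ K2 C2 hq2 hp2 hK2 (le_max_left _ _) hC2 hC2C
    refine ⟨G, hG, hG1, fun x hx => (hG2 x hx).trans h4, fun q hq => (hG3 q hq).trans ?_⟩
    refine ENNReal.ofReal_le_ofReal ?_
    exact mul_le_mul_of_nonneg_right h4 (by positivity)

end Pool.STE
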