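import Pool.Agent.H90.STE.Join1

/-!
# Sticky Kakeya in every dimension: draft of the second version
-/

set_option autoImplicit false

open MeasureTheory
open scoped RealInnerProductSpace ENNReal

namespace Pool.Agent.H90.V2

/-- The tube of length `1`, radius `δ`, centre `c` and axis direction `e` in the Euclidean space of
dimension `n = d + 1`. -/
def tube {d : ℕ} (δ : ℝ) (c e : EuclideanSpace ℝ (Fin (d + 1))) :
    Set (EuclideanSpace ℝ (Fin (d + 1))) :=
  {x | |⟪x - c, e⟫| ≤ 1 / 2 ∧ ‖(x - c) - ⟪x - c, e⟫ • e‖ ≤ δ}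

/-- The infinite cylinder of radius `r` about the line through `c` with direction `e`. -/
def cyl {d : ℕ} (r : ℝ) (c e : EuclideanSpace ℝ (Fin (d + 1))) :
    Set (EuclideanSpace ℝ (Fin (d + 1))) :=
  {x | ‖(x - c) - ⟪x - c, e⟫ • e‖ ≤ r}

/-- The covering number of the family at the scale `ρ` is at most `A`: for every point `x` and every
unit vector `v`, the tubes of the family whose centre is at distance at most `1` from `x` and whose
direction is at distance at most `ρ` from `v` are covered by at most `A` cylinders of radius `L * ρ`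
(each of these tubes lies in one of the cylinders). -/
def CoveredAt {d N : ℕ} (L δ ρ : ℝ) (A : ℕ) (c e : Fin N → EuclideanSpace ℝ (Fin (d + 1))) : Prop :=
  ∀ x v : EuclideanSpace ℝ (Fin (d + 1)), ‖v‖ = 1 →
    ∃ F : Finset (EuclideanSpace ℝ (Fin (d + 1)) × EuclideanSpace ℝ (Fin (d + 1))),
      F.card ≤ A ∧ (∀ f ∈ F, ‖f.2‖ = 1) ∧
      ∀ i, ‖c i - x‖ ≤ 1 → ‖e i - v‖ ≤ ρ → ∃ f ∈ F, tube δ (c i) (e i) ⊆ cyl (L * ρ) f.1 f.2

/-- The number of the tubes of the family through the point `x`: the sum of their indicators. -/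
noncomputable def mult {d N : ℕ} (δ : ℝ) (c e : Fin N → EuclideanSpace ℝ (Fin (d + 1)))
    (x : EuclideanSpace ℝ (Fin (d + 1))) : ℝ :=
  ∑ i, (tube δ (c i) (e i)).indicator (fun _ => (1 : ℝ)) x

/-- The upper box dimension of the set `Λ` of pairs (point, direction) is at most `s`, with the
constant `C`: for every `0 < ρ < 1` it is covered by at most `C ρ ^ (-s)` products of two balls of
radius `ρ`. -/
def Box {d : ℕ} (Λ : Set (EuclideanSpace ℝ (Fin (d + 1)) × EuclideanSpace ℝ (Fin (d + 1))))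
    (s C : ℝ) : Prop :=
  ∀ ρ : ℝ, 0 < ρ → ρ < 1 →
    ∃ F : Finset (EuclideanSpace ℝ (Fin (d + 1)) × EuclideanSpace ℝ (Fin (d + 1))),
      (F.card : ℝ) ≤ C * ρ ^ (-s) ∧ ∀ l ∈ Λ, ∃ f ∈ F, ‖l.1 - f.1‖ ≤ ρ ∧ ‖l.2 - f.2‖ ≤ ρ

/-- The packing dimension of the set `Λ` of pairs (point, direction) is at most `s`: for every
`s' > s` it is a countable union of sets of upper box dimension at most `s'`. -/
def Pack {d : ℕ} (Λ : Set (EuclideanSpace ℝ (Fin (d + 1)) × EuclideanSpace ℝ (Fin (d + 1))))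
    (s : ℝ) : Prop :=
  ∀ s' : ℝ, s < s' →
    ∃ Λj : ℕ → Set (EuclideanSpace ℝ (Fin (d + 1)) × EuclideanSpace ℝ (Fin (d + 1))),
      Λ ⊆ ⋃ j, Λj j ∧ ∀ j, ∃ C, Box (Λj j) s' C

/-- **Sticky Kakeya in every dimension** `n = d + 1 ≥ 2`: families of tubes with shadings, and sets.

First part, for all families: for all `ε > 0` and `L ≥ 1` there are `M`, `θ`, `P`, `C` such that the
following holds for all `0 < δ < 1`, all families of `N` tubes of radius `δ` with `δ`-separated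
orientations, and all `A r` which bound the covering numbers at the `M - 1` scales `δ ^ (r / M)`.
A set `X` which contains a part `lam δ ^ (n - 1)` of every tube has volume at least
`C⁻¹ lam ^ P δ ^ ε (∏ A r)⁻¹ (N δ ^ (n - 1))` (for example, the union of the tubes). There is a set
`G` which contains all but the part `δ ^ θ` of the total mass of the tubes, such that at most
`C δ ^ (-ε) ∏ A r` tubes meet in a point of `G`, and the sum of the indicators satisfies on `G` the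
conjectured `L ^ q` bound with this loss, for every `q ≥ n / (n - 1)`.

Second part: for every `ε > 0` there is `η > 0` such that a set `S` has Hausdorff dimension at least
`n - ε` if it meets in positive length every line `x + ℝ e`, `(x, e) ∈ Λ`, of a set `Λ` whose
packing dimension is at most `n - 1 + η` and whose directions are not a set of measure zero. In
particular the dimension is `n` if the packing dimension of `Λ` is `n - 1`. -/
theorem result (hTY : Pool.STE.TY1Stmt) (hDN : Pool.STE.DN1Stmt) (hSF2 : Pool.STE.SF2Stmt)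
    (hSF : Pool.STE.SFStmt) (d : ℕ) (hd : 1 ≤ d) :
    (∀ ε L : ℝ, 0 < ε → 1 ≤ L → ∃ M : ℕ, 1 ≤ M ∧ ∃ θ P C : ℝ, 0 < θ ∧ 0 ≤ P ∧ 0 < C ∧
      ∀ δ : ℝ, 0 < δ → δ < 1 → ∀ (N : ℕ) (c e : Fin N → EuclideanSpace ℝ (Fin (d + 1))),
        (∀ i, ‖e i‖ = 1) → (∀ i j, i ≠ j → δ ≤ ‖e i - e j‖) →
        ∀ A : ℕ → ℕ, (∀ r : ℕ, 1 ≤ r → r < M → 1 ≤ A r ∧
          CoveredAt L δ (δ ^ ((r : ℝ) / M)) (A r) c e) →
        (∀ (lam : ℝ) (X : Set (EuclideanSpace ℝ (Fin (d + 1)))), 0 < lam → lam ≤ 1 →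
          MeasurableSet X →
          (∀ i, ENNReal.ofReal (lam * δ ^ d) ≤ volume (X ∩ tube δ (c i) (e i))) →
          ENNReal.ofReal (C⁻¹ * lam ^ P * δ ^ ε *
            (∏ r ∈ Finset.Ico 1 M, (A r : ℝ))⁻¹ * ((N : ℝ) * δ ^ d)) ≤ volume X) ∧
        ∃ G : Set (EuclideanSpace ℝ (Fin (d + 1))), MeasurableSet G ∧
          ∑ i, volume (tube δ (c i) (e i) \ G) ≤
            ENNReal.ofReal (δ ^ θ) * ∑ i, volume (tube δ (c i) (e i)) ∧
          (∀ x ∈ G, mult δ c e x ≤ C * δ ^ (-ε) * ∏ r ∈ Finset.Ico 1 M, (A r : ℝ)) ∧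
          (∀ q : ℝ, 1 + 1 / (d : ℝ) ≤ q →
            eLpNorm (G.indicator (mult δ c e)) (ENNReal.ofReal q) volume ≤
              ENNReal.ofReal (C * δ ^ (-ε) * (∏ r ∈ Finset.Ico 1 M, (A r : ℝ)) *
                (δ ^ ((d : ℝ) / q) * (N : ℝ) ^ (1 - 1 / (q * d)))))) ∧
    (∀ ε : ℝ, 0 < ε → ∃ η : ℝ, 0 < η ∧ ∀ (S : Set (EuclideanSpace ℝ (Fin (d + 1))))
      (Λ : Set (EuclideanSpace ℝ (Fin (d + 1)) × EuclideanSpace ℝ (Fin (d + 1)))),
      Pack Λ (d + η) → (∀ l ∈ Λ, ‖l.2‖ = 1 ∧ 0 < volume {t : ℝ | l.1 + t • l.2 ∈ S}) →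
      0 < μH[(d : ℝ)] (Prod.snd '' Λ) → ENNReal.ofReal ((d : ℝ) + 1 - ε) ≤ dimH S) ∧
    (∀ (S : Set (EuclideanSpace ℝ (Fin (d + 1))))
      (Λ : Set (EuclideanSpace ℝ (Fin (d + 1)) × EuclideanSpace ℝ (Fin (d + 1)))), Pack Λ d →
      (∀ l ∈ Λ, ‖l.2‖ = 1 ∧ 0 < volume {t : ℝ | l.1 + t • l.2 ∈ S}) →
      0 < μH[(d : ℝ)] (Prod.snd '' Λ) → dimH S = (d : ℝ≥0∞) + 1) := by
  refine ⟨fun ε L hε hL => ?_, fun ε hε => hSF2 d ε hd hε,
    fun S Λ h1 h2 h3 => hSF d S Λ hd h1 h2 h3⟩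
  exact Pool.STE.join1 hTY hDN d hd ε L hε hL

end Pool.Agent.H90.V2
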